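import Pool.Agent.U272.IC.LevelT
import Pool.Agent.U272.IC.Final

/-!
# Expected complexity of a level for laws with a curve close to a level: the bound with a cube root
-/

set_option autoImplicit false

namespace Pool.Agent.U272.IC

open Finset MeasureTheory Filter Pool.Agent.H189R2.Lev Pool.Agent.H189R2.Iid
open Pool.Agent.U272.DP (CrossesOnce)
open Pool.Agent.Results.MP_a08d0a_co.IidLevel (crossings sl ic psi Simple crossings_lev
  crossings_flip measurable_levcount measurable_crossings psi_le simple_of_GP LN_neg count3)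
open KLev.Levels (height)
open scoped ENNReal

variable {μ : Measure (ℝ × ℝ)} {g : ℝ → ℝ} {κ ε : ℝ}

/-- the bound -/
noncomputable def bdT (n : ℕ) (K : ℕ) (x : ℝ) : ℝ :=
  2800016 * SS * n * cr (1 + n / Real.sqrt (K + 1) * x)

lemma k_le_one {n k : ℕ} (hn : 2 * k + 2 ≤ n) : (k : ℝ) / ((n - 2 : ℕ) : ℝ) ≤ 1 := by
  have h1 : (k : ℝ) ≤ ((n - 2 : ℕ) : ℝ) := by exact_mod_cast (by omega : k ≤ n - 2)
  exact div_le_one_of_le₀ h1 (Nat.cast_nonneg _)

theorem cross_lowT [IsProbabilityMeasure μ] (hμ : LN μ) (hg : Measurable g)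
    (hc : ∀ᵐ l ∂μ, CrossesOnce g l)
    (hκ : ∀ x, |(μ {l | l.1 * x + l.2 < g x}).toReal - κ| ≤ ε) {n k : ℕ} (hk : 2 * k + 2 ≤ n) :
    ∫⁻ P, ((crossings (sl P) (ic P) k).ncard : ℝ≥0∞) ∂Measure.pi (fun _ : Fin n => μ) ≤
      ENNReal.ofReal (bdT n k (|(k : ℝ) / ((n - 2 : ℕ) : ℝ) - κ| + ε)) := by
  classical
  have hε : 0 ≤ ε := (abs_nonneg _).trans (hκ 0)
  refine le_trans (lintegral_mono (fun P => ?_))
    (level_boundT hμ hk (by positivity) (fun δ hδ hδ1 =>
      ee_third hμ hg hc hκ hδ hδ1 (k_le_one hk)))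
  exact Nat.cast_le.mpr (crossings_lev (P := P) k)

theorem cross_highT [IsProbabilityMeasure μ] (hμ : LN μ) (hg : Measurable g)
    (hc : ∀ᵐ l ∂μ, CrossesOnce g l)
    (hκ : ∀ x, |(μ {l | l.1 * x + l.2 < g x}).toReal - κ| ≤ ε) {n k : ℕ} (hk : n ≤ 2 * k + 2)
    (hk2 : k + 2 ≤ n) :
    ∫⁻ P, ((crossings (sl P) (ic P) k).ncard : ℝ≥0∞) ∂Measure.pi (fun _ : Fin n => μ) ≤
      ENNReal.ofReal (bdT n (n - 2 - k) (|(k : ℝ) / ((n - 2 : ℕ) : ℝ) - κ| + ε)) := by
  classical
  set μ' := μ.map (fun y => -y) with hμ'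
  have hprob : IsProbabilityMeasure μ' :=
    Measure.isProbabilityMeasure_map measurable_neg.aemeasurable
  have hc' : ∀ᵐ l ∂μ', CrossesOnce (fun x => - g x) l := by
    have h := (MeasurableEquiv.neg (ℝ × ℝ)).measurableEmbedding.ae_map_iff (μ := μ)
      (p := fun l => CrossesOnce (fun x => - g x) l)
    refine h.2 ?_
    filter_upwards [hc] with l hl
    exact once_neg hl
  have hκ' : ∀ x, |(μ' {l | l.1 * x + l.2 < - g x}).toReal - (1 - κ)| ≤ ε := by
    intro x
    have m0 : Measurable (fun r : ℝ × ℝ => r.1 * x + r.2) :=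
      (measurable_fst.mul measurable_const).add measurable_snd
    rw [hμ', Measure.map_apply measurable_neg (measurableSet_lt m0 measurable_const)]
    have e1 : (fun y : ℝ × ℝ => -y) ⁻¹' {l : ℝ × ℝ | l.1 * x + l.2 < - g x} =
        {l : ℝ × ℝ | g x < l.1 * x + l.2} := by
      ext l
      show (-l).1 * x + (-l).2 < - g x ↔ g x < l.1 * x + l.2
      simp only [Prod.fst_neg, Prod.snd_neg]
      constructor <;> intro h <;> linarith
    have e2 : μ {l : ℝ × ℝ | l.1 * x + l.2 = g x} = 0 := by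
      have := hμ x 1 (g x) (Or.inr one_ne_zero)
      refine measure_mono_null ?_ this
      intro l hl
      have hl' : l.1 * x + l.2 = g x := hl
      show x * l.1 + 1 * l.2 = g x
      linarith
    have e3 : (μ {l : ℝ × ℝ | l.1 * x + l.2 < g x}).toReal +
        (μ {l : ℝ × ℝ | g x < l.1 * x + l.2}).toReal = 1 := by
      have h1 : μ ({l : ℝ × ℝ | l.1 * x + l.2 < g x} ∪ ({l : ℝ × ℝ | l.1 * x + l.2 = g x} ∪
          {l : ℝ × ℝ | g x < l.1 * x + l.2})) = 1 := by
        rw [← measure_univ (μ := μ)]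
        congr 1
        ext l
        simp only [Set.mem_union, Set.mem_univ, iff_true]
        exact lt_trichotomy (l.1 * x + l.2) (g x)
      rw [measure_union _ ((measurableSet_eq_fun m0 measurable_const).union
        (measurableSet_lt measurable_const m0)), measure_union _
        (measurableSet_lt measurable_const m0), e2, zero_add] at h1
      · rw [← ENNReal.toReal_add (measure_ne_top _ _) (measure_ne_top _ _), h1]
        rfl
      · rw [Set.disjoint_left]
        intro l h1 h2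
        have h1' : l.1 * x + l.2 = g x := h1
        have h2' : g x < l.1 * x + l.2 := h2
        linarith
      · rw [Set.disjoint_left]
        rintro l h1 (h2 | h2)
        · have h1' : l.1 * x + l.2 < g x := h1
          have h2' : l.1 * x + l.2 = g x := h2
          linarith
        · have h1' : l.1 * x + l.2 < g x := h1
          have h2' : g x < l.1 * x + l.2 := h2
          linarith
    rw [e1]
    have e4 := hκ x
    rw [abs_sub_comm] at e4
    have e5 : (μ {l : ℝ × ℝ | g x < l.1 * x + l.2}).toReal - (1 - κ) =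
        κ - (μ {l : ℝ × ℝ | l.1 * x + l.2 < g x}).toReal := by linarith
    rw [e5]
    exact e4
  have h1 := level_boundT (LN_neg hμ) (n := n) (k := n - 2 - k) (by omega)
    (β := |((n - 2 - k : ℕ) : ℝ) / ((n - 2 : ℕ) : ℝ) - (1 - κ)| + ε)
    (by
      have hε : 0 ≤ ε := (abs_nonneg _).trans (hκ 0)
      positivity)
    (fun δ hδ hδ1 => ee_third (LN_neg hμ) hg.neg hc' hκ' hδ hδ1 (k_le_one (by omega)))
  have hmp : MeasurePreserving (fun (P : Fin n → ℝ × ℝ) (l : Fin n) => -P l)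
      (Measure.pi (fun _ : Fin n => μ)) (Measure.pi (fun _ : Fin n => μ')) :=
    measurePreserving_pi (fun _ => μ) (fun _ => μ') (fun _ => measurable_neg.measurePreserving μ)
  rw [← hmp.lintegral_comp (measurable_levcount (n - 2 - k))] at h1
  rcases Nat.eq_zero_or_pos (n - 2) with hn2 | hn2
  · -- two lines
    have hk0 : k = 0 := by omega
    have hn2' : n = 2 := by omega
    subst hk0
    subst hn2'
    exact cross_lowT hμ hg hc hκ (by norm_num)
  have habs : |((n - 2 - k : ℕ) : ℝ) / ((n - 2 : ℕ) : ℝ) - (1 - κ)| =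
      |(k : ℝ) / ((n - 2 : ℕ) : ℝ) - κ| := by
    have hN0 : (0 : ℝ) < ((n - 2 : ℕ) : ℝ) := by exact_mod_cast hn2
    rw [Nat.cast_sub (by omega : k ≤ n - 2), sub_div, div_self hN0.ne', abs_sub_comm]
    congr 1
    ring
  rw [habs] at h1
  refine le_trans (lintegral_mono_ae ?_) h1
  filter_upwards [ae_GP hμ n] with P hP
  have h2 := (crossings_flip hP (k := k)).trans (crossings_lev (n - 2 - k))
  exact_mod_cast h2

/-- the expected number of crossings of a level -/
theorem cross_allT [IsProbabilityMeasure μ] (hμ : LN μ) (hg : Measurable g)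
    (hc : ∀ᵐ l ∂μ, CrossesOnce g l)
    (hκ : ∀ x, |(μ {l | l.1 * x + l.2 < g x}).toReal - κ| ≤ ε) (n k : ℕ) :
    ∫⁻ P, ((crossings (sl P) (ic P) k).ncard : ℝ≥0∞) ∂Measure.pi (fun _ : Fin n => μ) ≤
      ENNReal.ofReal (8400048 * SS * n * cr (1 + (|k - κ * n| + ε * n) /
        Real.sqrt ((min k (n - 2 - k) : ℕ) + 1))) := by
  have hSS := SS_ge
  have hε : 0 ≤ ε := (abs_nonneg _).trans (hκ 0)
  by_cases hk2 : k + 2 ≤ n
  swap
  · rw [cross_zero hμ (by omega)]
    exact zero_le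
  have hcr : ∫⁻ P, ((crossings (sl P) (ic P) k).ncard : ℝ≥0∞) ∂Measure.pi (fun _ : Fin n => μ) ≤
      ENNReal.ofReal (bdT n (min k (n - 2 - k)) (|(k : ℝ) / ((n - 2 : ℕ) : ℝ) - κ| + ε)) := by
    by_cases hk : 2 * k + 2 ≤ n
    · have hmin : min k (n - 2 - k) = k := by omega
      rw [hmin]
      exact cross_lowT hμ hg hc hκ hk
    · have hmin : min k (n - 2 - k) = n - 2 - k := by omega
      rw [hmin]
      exact cross_highT hμ hg hc hκ (by omega) hk2
  refine hcr.trans (ENNReal.ofReal_le_ofReal ?_)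
  unfold bdT
  set K := min k (n - 2 - k) with hK
  have hs : 0 < Real.sqrt ((K : ℝ) + 1) := Real.sqrt_pos.mpr (by positivity)
  have hs1 : 1 ≤ Real.sqrt ((K : ℝ) + 1) := Real.one_le_sqrt.mpr (by
    have : (0 : ℝ) ≤ K := Nat.cast_nonneg K
    linarith)
  have hn2 : (2 : ℝ) ≤ n := by exact_mod_cast (by omega : 2 ≤ n)
  have h1 : (n : ℝ) * |(k : ℝ) / ((n - 2 : ℕ) : ℝ) - κ| ≤ |k - κ * n| + 2 := by
    rcases Nat.eq_zero_or_pos (n - 2) with h0 | h0
    · have hk0 : k = 0 := by omega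
      rw [h0, hk0]
      have hn0 : (0 : ℝ) ≤ n := by linarith
      simp only [Nat.cast_zero, div_zero, zero_sub, abs_neg, abs_mul, abs_of_nonneg hn0]
      linarith
    · have hN0 : (0 : ℝ) < ((n - 2 : ℕ) : ℝ) := by exact_mod_cast h0
      have hNr : ((n - 2 : ℕ) : ℝ) = n - 2 := by rw [Nat.cast_sub (by omega)]; norm_num
      have e1 : (n : ℝ) * ((k : ℝ) / ((n - 2 : ℕ) : ℝ) - κ) =
          (k - κ * n) + 2 * (k / ((n - 2 : ℕ) : ℝ)) := by
        rw [hNr]
        rw [hNr] at hN0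
        field_simp
        ring
      have e2 : (n : ℝ) * |(k : ℝ) / ((n - 2 : ℕ) : ℝ) - κ| =
          |(n : ℝ) * ((k : ℝ) / ((n - 2 : ℕ) : ℝ) - κ)| := by
        rw [abs_mul, abs_of_nonneg (by linarith : (0 : ℝ) ≤ n)]
      rw [e2, e1]
      refine (abs_add_le _ _).trans ?_
      have e3 : (k : ℝ) / ((n - 2 : ℕ) : ℝ) ≤ 1 := by
        rw [div_le_one hN0]
        exact_mod_cast (by omega : k ≤ n - 2)
      have e4 : |2 * ((k : ℝ) / ((n - 2 : ℕ) : ℝ))| ≤ 2 := by
        rw [abs_of_nonneg (by positivity)]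
        linarith
      linarith
  have h2 : (n : ℝ) / Real.sqrt (K + 1) * (|(k : ℝ) / ((n - 2 : ℕ) : ℝ) - κ| + ε) ≤
      2 + (|k - κ * n| + ε * n) / Real.sqrt (K + 1) := by
    have e1 : (n : ℝ) / Real.sqrt (K + 1) * (|(k : ℝ) / ((n - 2 : ℕ) : ℝ) - κ| + ε) =
        (n * |(k : ℝ) / ((n - 2 : ℕ) : ℝ) - κ| + ε * n) / Real.sqrt (K + 1) := by
      field_simp
    rw [e1]
    have e2 : (n * |(k : ℝ) / ((n - 2 : ℕ) : ℝ) - κ| + ε * n) / Real.sqrt (K + 1) ≤
        (|k - κ * n| + 2 + ε * n) / Real.sqrt (K + 1) := by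
      apply div_le_div_of_nonneg_right _ hs.le
      linarith
    refine e2.trans ?_
    have e3 : (|k - κ * n| + 2 + ε * n) / Real.sqrt (K + 1) =
        2 / Real.sqrt (K + 1) + (|k - κ * n| + ε * n) / Real.sqrt (K + 1) := by
      rw [← add_div]
      congr 1
      ring
    rw [e3]
    have e4 : 2 / Real.sqrt ((K : ℝ) + 1) ≤ 2 := by
      rw [div_le_iff₀ hs]
      linarith
    linarith
  have h3 : 0 ≤ (|k - κ * n| + ε * n) / Real.sqrt (K + 1) := by positivity
  have h4 : (0 : ℝ) ≤ n / Real.sqrt (K + 1) * (|(k : ℝ) / ((n - 2 : ℕ) : ℝ) - κ| + ε) := by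
    positivity
  have h5 := cr_scale (by norm_num : (1 : ℝ) ≤ 3)
    (by linarith : 0 ≤ 1 + n / Real.sqrt (K + 1) * (|(k : ℝ) / ((n - 2 : ℕ) : ℝ) - κ| + ε))
    (by linarith : 0 ≤ 1 + (|k - κ * n| + ε * n) / Real.sqrt (K + 1)) (by linarith)
  calc _ ≤ 2800016 * SS * n * (3 * cr (1 + (|k - κ * n| + ε * n) / Real.sqrt (K + 1))) :=
        mul_le_mul_of_nonneg_left h5 (by positivity)
    _ = _ := by ring

/-- the expected complexity of a level -/
theorem psi_allT [IsProbabilityMeasure μ] (hμ : LN μ) (hg : Measurable g)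
    (hc : ∀ᵐ l ∂μ, CrossesOnce g l)
    (hκ : ∀ x, |(μ {l | l.1 * x + l.2 < g x}).toReal - κ| ≤ ε) {n k : ℕ} (hk : k < n) :
    ∫⁻ P, (psi (sl P) (ic P) k : ℝ≥0∞) ∂Measure.pi (fun _ : Fin n => μ) ≤
      ENNReal.ofReal (33600192 * SS * n * cr (1 + (|k - κ * n| + ε * n) /
        Real.sqrt ((min k (n - 1 - k) : ℕ) + 1))) := by
  have hSS := SS_ge
  have hε : 0 ≤ ε := (abs_nonneg _).trans (hκ 0)
  have hn0 : (0 : ℝ) ≤ n := Nat.cast_nonneg n
  have hpsi : ∀ᵐ P ∂Measure.pi (fun _ : Fin n => μ), psi (sl P) (ic P) k ≤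
      ((crossings (sl P) (ic P) k).ncard +
        (if k = 0 then 0 else (crossings (sl P) (ic P) (k - 1)).ncard) : ℕ) := by
    filter_upwards [ae_GP hμ n] with P hP
    exact psi_le (simple_of_GP hP) hk
  set K := min k (n - 1 - k) with hK
  set X : ℝ := (|k - κ * n| + ε * n) / Real.sqrt ((K : ℝ) + 1) with hX
  have hs : 0 < Real.sqrt ((K : ℝ) + 1) := Real.sqrt_pos.mpr (by positivity)
  have hX0 : 0 ≤ X := by positivity
  -- comparison of the square roots
  have hsq : ∀ K' : ℕ, K ≤ K' + 1 → Real.sqrt ((K : ℝ) + 1) ≤ 3 / 2 * Real.sqrt ((K' : ℝ) + 1) := by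
    intro K' hK'
    have h1 : (K : ℝ) ≤ K' + 1 := by exact_mod_cast hK'
    have h2 : (0 : ℝ) ≤ K' := Nat.cast_nonneg K'
    rw [show (3 / 2 : ℝ) * Real.sqrt ((K' : ℝ) + 1) = Real.sqrt (9 / 4 * (K' + 1)) by
      rw [Real.sqrt_mul (by norm_num), show (9 / 4 : ℝ) = (3 / 2) ^ 2 by norm_num,
        Real.sqrt_sq (by norm_num)]]
    apply Real.sqrt_le_sqrt
    linarith
  have hone : ∀ (K' : ℕ) (y : ℝ), K ≤ K' + 1 → 0 ≤ y → y ≤ |k - κ * n| + ε * n + 1 →
      y / Real.sqrt ((K' : ℝ) + 1) ≤ 1 + 3 / 2 * X := by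
    intro K' y hK' hy0 hy
    have hs' : 1 ≤ Real.sqrt ((K' : ℝ) + 1) := Real.one_le_sqrt.mpr (by
      have : (0 : ℝ) ≤ K' := Nat.cast_nonneg K'
      linarith)
    have h1 := hsq K' hK'
    rw [div_le_iff₀ (by linarith)]
    have h2 : |k - κ * n| + ε * n = X * Real.sqrt ((K : ℝ) + 1) := by
      rw [hX]
      field_simp
    have h3 : X * Real.sqrt ((K : ℝ) + 1) ≤ X * (3 / 2 * Real.sqrt ((K' : ℝ) + 1)) :=
      mul_le_mul_of_nonneg_left h1 hX0
    nlinarith
  have b1 : ∫⁻ P, ((crossings (sl P) (ic P) k).ncard : ℝ≥0∞)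
      ∂Measure.pi (fun _ : Fin n => μ) ≤ ENNReal.ofReal (16800096 * SS * n * cr (1 + X)) := by
    refine (cross_allT hμ hg hc hκ n k).trans (ENNReal.ofReal_le_ofReal ?_)
    have h1 := hone (min k (n - 2 - k)) (|k - κ * n| + ε * n) (by omega) (by positivity)
      (by linarith)
    have h2 : 0 ≤ (|k - κ * n| + ε * n) / Real.sqrt (((min k (n - 2 - k) : ℕ) : ℝ) + 1) := by
      positivity
    have h3 := cr_scale (by norm_num : (1 : ℝ) ≤ 2)
      (by linarith : 0 ≤ 1 + (|k - κ * n| + ε * n) / Real.sqrt (((min k (n - 2 - k) : ℕ) : ℝ) + 1))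
      (by linarith : 0 ≤ 1 + X) (by linarith)
    calc _ ≤ 8400048 * SS * n * (2 * cr (1 + X)) :=
          mul_le_mul_of_nonneg_left h3 (by positivity)
      _ = _ := by ring
  have b2 : ∫⁻ P, (if k = 0 then 0 else ((crossings (sl P) (ic P) (k - 1)).ncard : ℝ≥0∞))
      ∂Measure.pi (fun _ : Fin n => μ) ≤ ENNReal.ofReal (16800096 * SS * n * cr (1 + X)) := by
    split_ifs with h0
    · rw [lintegral_zero]; exact zero_le
    · refine (cross_allT hμ hg hc hκ n (k - 1)).trans (ENNReal.ofReal_le_ofReal ?_)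
      have hk1 : (((k - 1 : ℕ) : ℝ)) = k - 1 := by
        rw [Nat.cast_sub (by omega)]
        norm_num
      have h2 : |((k - 1 : ℕ) : ℝ) - κ * n| ≤ |k - κ * n| + 1 := by
        rw [hk1, show (k : ℝ) - 1 - κ * n = (k - κ * n) + (-1) by ring]
        refine (abs_add_le _ _).trans ?_
        rw [abs_neg, abs_one]
      have h1 := hone (min (k - 1) (n - 2 - (k - 1))) (|((k - 1 : ℕ) : ℝ) - κ * n| + ε * n)
        (by omega) (by positivity) (by linarith)
      have h3 : 0 ≤ (|((k - 1 : ℕ) : ℝ) - κ * n| + ε * n) /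
          Real.sqrt (((min (k - 1) (n - 2 - (k - 1)) : ℕ) : ℝ) + 1) := by
        positivity
      have h4 := cr_scale (by norm_num : (1 : ℝ) ≤ 2)
        (by linarith : 0 ≤ 1 + (|((k - 1 : ℕ) : ℝ) - κ * n| + ε * n) /
          Real.sqrt (((min (k - 1) (n - 2 - (k - 1)) : ℕ) : ℝ) + 1))
        (by linarith : 0 ≤ 1 + X) (by linarith)
      calc _ ≤ 8400048 * SS * n * (2 * cr (1 + X)) :=
            mul_le_mul_of_nonneg_left h4 (by positivity)
        _ = _ := by ring
  calc ∫⁻ P, (psi (sl P) (ic P) k : ℝ≥0∞) ∂Measure.pi (fun _ : Fin n => μ)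
      ≤ ∫⁻ P, (((crossings (sl P) (ic P) k).ncard : ℝ≥0∞) +
        (if k = 0 then 0 else ((crossings (sl P) (ic P) (k - 1)).ncard : ℝ≥0∞)))
        ∂Measure.pi (fun _ : Fin n => μ) := by
        apply lintegral_mono_ae
        filter_upwards [hpsi] with P hP
        have h1 : (psi (sl P) (ic P) k : ℝ≥0∞) ≤ (((crossings (sl P) (ic P) k).ncard +
          (if k = 0 then 0 else (crossings (sl P) (ic P) (k - 1)).ncard) : ℕ) : ℕ∞) := by
          exact_mod_cast hP
        refine h1.trans ?_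
        rw [ENat.toENNReal_coe]
        split_ifs with h
        · simp
        · push_cast
          rfl
    _ = _ := lintegral_add_left (measurable_crossings k) _
    _ ≤ ENNReal.ofReal (16800096 * SS * n * cr (1 + X)) + ENNReal.ofReal (16800096 * SS * n * cr (1 + X)) :=
        add_le_add b1 b2
    _ = ENNReal.ofReal (33600192 * SS * n * cr (1 + X)) := by
        have hc0 : 0 ≤ cr (1 + X) := cr_nonneg (by linarith)
        rw [← ENNReal.ofReal_add (by positivity) (by positivity)]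
        congr 1
        ring

end Pool.Agent.U272.IC
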