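import Pool.Agent.U272.DP.Loc
import Pool.Agent.H189R2.Iid.Cross

/-!
# Crossings with no line between them and a curve: at most `33 n`
-/

set_option autoImplicit false

namespace Pool.Agent.U272.IC

open Finset Pool.Agent.TH124.KE Pool.Agent.U272.DP

section on

variable {g : ℝ → ℝ} {W : Finset (ℝ × ℝ)}

lemma zero_conv {p : ℝ × ℝ} (h : Ri g p ∨ Fa g p) {σ ζ τ : ℝ} (h1 : hh σ p = g σ)
    (h2 : hh τ p = g τ) (h3 : σ ≤ ζ) (h4 : ζ ≤ τ) : hh ζ p = g ζ := by
  rcases lt_trichotomy (hh ζ p) (g ζ) with h5 | h5 | h5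
  · rcases h with h | h
    · have := h.2 _ _ h3 h5
      linarith
    · have := h.1 _ _ h4 h5
      linarith
  · exact h5
  · rcases h with h | h
    · have := h.1 _ _ h4 h5
      linarith
    · have := h.2 _ _ h3 h5
      linarith

open scoped Classical in
/-- crossings on the curve -/
noncomputable def On (g : ℝ → ℝ) (W : Finset (ℝ × ℝ)) : Finset Seg :=
  (W ×ˢ W).filter (fun e => e.1.1 < e.2.1 ∧ hh (ss e) e.1 = g (ss e))

lemma on_zero {e : Seg} (he : e ∈ On g W) {p : ℝ × ℝ} (hp : e.1 = p ∨ e.2 = p) :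
    p ∈ W ∧ hh (ss e) p = g (ss e) := by
  unfold On at he
  rw [mem_filter, mem_product] at he
  obtain ⟨⟨h1, h2⟩, h3, h4⟩ := he
  rcases hp with rfl | rfl
  · exact ⟨h1, h4⟩
  · exact ⟨h2, (hh_sl h3.ne).trans h4⟩

lemma on_key (h1 : ∀ p ∈ W, Ri g p ∨ Fa g p) {e f h : Seg} (he : e ∈ On g W) (hf : f ∈ On g W)
    (hh' : h ∈ On g W) {p q : ℝ × ℝ} (hpq : (e.1 = p ∧ e.2 = q) ∨ (e.1 = q ∧ e.2 = p))
    (hfp : f.1 = p ∨ f.2 = p) (hhq : h.1 = q ∨ h.2 = q) (hef : ss e < ss f)
    (hfh : ss f ≤ ss h) : False := by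
  have ep : e.1 = p ∨ e.2 = p := hpq.imp (fun h => h.1) (fun h => h.2)
  have eq' : e.1 = q ∨ e.2 = q := by
    rcases hpq with h | h
    · exact Or.inr h.2
    · exact Or.inl h.1
  obtain ⟨hpW, a1⟩ := on_zero he ep
  obtain ⟨hqW, a2⟩ := on_zero he eq'
  obtain ⟨-, a3⟩ := on_zero hf hfp
  obtain ⟨-, a4⟩ := on_zero hh' hhq
  have a5 := zero_conv (h1 q hqW) a2 a4 hef.le hfh
  have a6 : hh (ss f) p = hh (ss f) q := a3.trans a5.symm
  have hlt : e.1.1 < e.2.1 := by
    unfold On at he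
    exact (mem_filter.1 he).2.1
  rcases hpq with ⟨rfl, rfl⟩ | ⟨rfl, rfl⟩
  · have := (hh_eq hlt.ne (ss f)).1 a6.symm
    have h2 : ss e = ss f := this
    linarith
  · have := (hh_eq hlt.ne (ss f)).1 a6
    have h2 : ss e = ss f := this
    linarith

theorem on_le (hW : GP W) (h1 : ∀ p ∈ W, Ri g p ∨ Fa g p) : #(On g W) ≤ #W := by
  classical
  set L : Seg → ℝ × ℝ → Prop := fun e p => ∀ f ∈ On g W, (f.1 = p ∨ f.2 = p) → ss f ≤ ss e with hL
  have hor : ∀ e ∈ On g W, L e e.1 ∨ L e e.2 := by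
    intro e he
    by_contra hc
    push Not at hc
    obtain ⟨c1, c2⟩ := hc
    rw [hL] at c1 c2
    push Not at c1 c2
    obtain ⟨f, hf, hf1, hf2⟩ := c1
    obtain ⟨h, hh1, hh2, hh3⟩ := c2
    rcases le_total (ss f) (ss h) with h4 | h4
    · exact on_key h1 he hf hh1 (Or.inl ⟨rfl, rfl⟩) hf1 hh2 hf2 h4
    · exact on_key h1 he hh1 hf (Or.inr ⟨rfl, rfl⟩) hh2 hf1 hh3 h4
  apply card_le_card_of_injOn (fun e => if L e e.1 then e.1 else e.2)
  · intro e he
    rw [mem_coe] at he
    show (if L e e.1 then e.1 else e.2) ∈ (W : Set (ℝ × ℝ))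
    split_ifs
    · exact (on_zero he (Or.inl rfl)).1
    · exact (on_zero he (Or.inr rfl)).1
  · intro e he f hf hef
    rw [mem_coe] at he hf
    have key : ∀ e ∈ On g W, ∃ p, (if L e e.1 then e.1 else e.2) = p ∧ L e p ∧
        (e.1 = p ∨ e.2 = p) := by
      intro e he
      by_cases h : L e e.1
      · exact ⟨e.1, if_pos h, h, Or.inl rfl⟩
      · exact ⟨e.2, if_neg h, (hor e he).resolve_left h, Or.inr rfl⟩
    obtain ⟨p, hp1, hp2, hp3⟩ := key e he
    obtain ⟨q, hq1, hq2, hq3⟩ := key f hf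
    have hpq : p = q := by
      rw [← hp1, ← hq1]
      exact hef
    subst hpq
    have hss : ss e = ss f := le_antisymm (hq2 e he hp3) (hp2 f hf hq3)
    have he' := he
    have hf' := hf
    unfold On at he' hf'
    rw [mem_filter, mem_product] at he' hf'
    obtain ⟨⟨e1, e2⟩, e3, e4⟩ := he'
    obtain ⟨⟨f1, f2⟩, f3, f4⟩ := hf'
    have hee : e.1 ≠ e.2 := by intro hc; rw [hc] at e3; exact lt_irrefl _ e3
    have hff : f.1 ≠ f.2 := by intro hc; rw [hc] at f3; exact lt_irrefl _ f3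
    -- all four points are on one line
    have hon : ∀ z ∈ W, hh (ss e) z = g (ss e) → z = e.1 ∨ z = e.2 := by
      intro z hz hzg
      by_contra hc
      push Not at hc
      have s1 : sl e.1 z = ss e := (hh_eq (hW.ne1 e1 hz hc.1.symm) _).1 (by rw [hzg, e4])
      exact hW.col e.1 e1 z hz e.2 e2 hc.1.symm hee hc.2 (s1.trans rfl)
    have g1 : hh (ss e) f.1 = g (ss e) := by
      rw [hss]
      exact f4
    have g2 : hh (ss e) f.2 = g (ss e) := by
      rw [hss]
      exact (hh_sl f3.ne).trans f4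
    rcases hon _ f1 g1 with a | a <;> rcases hon _ f2 g2 with b | b
    · exact absurd (a.trans b.symm) hff
    · exact (Prod.ext a b).symm
    · rw [a, b] at f3
      exact absurd f3 (lt_asymm e3)
    · exact absurd (a.trans b.symm) hff

end on

open Pool.Agent.H189R2.Iid (X2 Y2 T mem_T)

/-- the lines strictly between the crossing of `p` and `q` and the curve `g` -/
def bet (g : ℝ → ℝ) (p q : ℝ × ℝ) : Set (ℝ × ℝ) :=
  {r | (Y2 p q < r.1 * X2 p q + r.2 ∧ r.1 * X2 p q + r.2 < g (X2 p q)) ∨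
    (g (X2 p q) < r.1 * X2 p q + r.2 ∧ r.1 * X2 p q + r.2 < Y2 p q)}

lemma sl_X2 (p q : ℝ × ℝ) : sl q p = - X2 p q := by
  unfold sl X2
  rw [← neg_sub p.2 q.2, neg_div, neg_neg]

lemma hh_X2 (p q r : ℝ × ℝ) : hh (sl q p) r = r.1 * X2 p q + r.2 := by
  rw [sl_X2]
  unfold hh
  ring

open scoped Classical in
/-- the crossings without a line between them and the curve -/
theorem disc_le {n : ℕ} {P : Fin n → ℝ × ℝ} (hP : Pool.Agent.H189R2.Iid.GP P) {g : ℝ → ℝ}
    (hg : ∀ i, CrossesOnce g (P i)) :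
    ((T P).filter (fun q => ∀ l, P l ∉ bet g (P q.1) (P q.2))).card ≤ 33 * n := by
  have hinj : Function.Injective P := fun i j h => hP.1 i j (by rw [h])
  set W : Finset (ℝ × ℝ) := univ.image P with hW
  have hWc : #W = n := by
    rw [hW, card_image_of_injective _ hinj, card_univ, Fintype.card_fin]
  have hG : GP W := by
    constructor
    · intro p hp q hq h
      rw [hW, mem_image] at hp hq
      obtain ⟨i, -, rfl⟩ := hp
      obtain ⟨j, -, rfl⟩ := hq
      rw [hP.1 i j h]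
    · intro p hp q hq r hr hpq hpr hqr h
      rw [hW, mem_image] at hp hq hr
      obtain ⟨i, -, rfl⟩ := hp
      obtain ⟨j, -, rfl⟩ := hq
      obtain ⟨l, -, rfl⟩ := hr
      have hij : i ≠ j := fun h => hpq (by rw [h])
      have hil : i ≠ l := fun h => hpr (by rw [h])
      have hjl : j ≠ l := fun h => hqr (by rw [h])
      have h1 : (P i).1 ≠ (P j).1 := fun h => hij (hP.1 i j h)
      have h2 : (P i).1 ≠ (P l).1 := fun h => hil (hP.1 i l h)
      have c1 : ∀ u v : Fin n, X2 (P u) (P v) = - sl (P u) (P v) := by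
        intro u v
        rw [sl_comm, sl_X2, neg_neg]
      have c2 : ∀ u v : Fin n, X2 (P u) (P v) = - sl (P v) (P u) := by
        intro u v
        rw [sl_X2, neg_neg]
      rcases lt_or_gt_of_ne h1 with h1 | h1 <;> rcases lt_or_gt_of_ne h2 with h2 | h2
      · exact hjl (hP.2 j i l i h1 h2 (by rw [c2, c2, h])).1
      · exact hij.symm (hP.2 j i i l h1 h2 (by rw [c2, c1, h])).1
      · exact hil (hP.2 i j l i h1 h2 (by rw [c1, c2, h])).1
      · exact hjl (hP.2 i j i l h1 h2 (by rw [c1, c1, h])).2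
  set g' : ℝ → ℝ := fun σ => g (-σ) with hg'
  have hR : ∀ p ∈ W, Ri g' p ∨ Fa g' p := by
    intro p hp
    rw [hW, mem_image] at hp
    obtain ⟨i, -, rfl⟩ := hp
    exact once_ri (hg i)
  have hE := EV_le hG hR 0
  have hO := on_le hG hR
  rw [hWc] at hE hO
  have hmap : ((T P).filter (fun q => ∀ l, P l ∉ bet g (P q.1) (P q.2))).card ≤
      #(EV g' W 0 ∪ On g' W) := by
    apply card_le_card_of_injOn (fun q => ((P q.2, P q.1) : Seg))
    · intro q hq
      rw [mem_coe, mem_filter, mem_T] at hq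
      obtain ⟨h1, h2⟩ := hq
      rw [mem_coe, mem_union]
      have m1 : P q.2 ∈ W := mem_image_of_mem _ (mem_univ _)
      have m2 : P q.1 ∈ W := mem_image_of_mem _ (mem_univ _)
      have hss : ss ((P q.2, P q.1) : Seg) = sl (P q.2) (P q.1) := rfl
      by_cases hc : hh (sl (P q.2) (P q.1)) (P q.2) = g' (sl (P q.2) (P q.1))
      · right
        unfold On
        rw [mem_filter, mem_product]
        exact ⟨⟨m1, m2⟩, h1, hc⟩
      · left
        unfold EV
        rw [mem_filter, mem_product]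
        refine ⟨⟨m1, m2⟩, h1, hc, ?_⟩
        unfold NN
        rw [Nat.le_zero, card_eq_zero]
        apply filter_false_of_mem
        intro w hw hb
        rw [hW, mem_image] at hw
        obtain ⟨l, -, rfl⟩ := hw
        apply h2 l
        unfold Bt at hb
        rw [hss] at hb
        have e1 : hh (sl (P q.2) (P q.1)) (P q.2) = Y2 (P q.1) (P q.2) := by
          rw [← hh_sl h1.ne, hh_X2]
          rfl
        have e2 : g' (sl (P q.2) (P q.1)) = g (X2 (P q.1) (P q.2)) := by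
          rw [hg']
          show g (-sl (P q.2) (P q.1)) = _
          rw [sl_X2, neg_neg]
        have e3 : hh (sl (P q.2) (P q.1)) (P l) =
            (P l).1 * X2 (P q.1) (P q.2) + (P l).2 := hh_X2 _ _ _
        have e4 : ((P q.2, P q.1) : Seg).1 = P q.2 := rfl
        rw [e4, e1, e2, e3] at hb
        exact hb.symm
    · intro q hq q' hq' h
      rw [Prod.mk.injEq] at h
      exact Prod.ext (hinj h.2) (hinj h.1)
  have := hmap.trans (card_union_le _ _)
  omega

end Pool.Agent.U272.IC
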