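import Pool.Agent.U272.IC.Third

/-!
# The expected number of crossings of a given level, for laws with a curve close to a level: the
bound with a cube root
-/

set_option autoImplicit false

namespace Pool.Agent.U272.IC

open Finset MeasureTheory Filter Pool.Agent.H189R2.Lev Pool.Agent.H189R2.Iid
open Pool.Agent.U272.DP (CrossesOnce)
open scoped ENNReal

variable {μ : Measure (ℝ × ℝ)}

/-- the cube root -/
noncomputable def cr (y : ℝ) : ℝ := y ^ (1 / 3 : ℝ)

lemma cr_nonneg {y : ℝ} (hy : 0 ≤ y) : 0 ≤ cr y := Real.rpow_nonneg hy _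

lemma cr_pow {y : ℝ} (hy : 0 ≤ y) : cr y ^ 3 = y := by
  unfold cr
  rw [← Real.rpow_natCast, ← Real.rpow_mul hy]
  norm_num

lemma cr_one_le {y : ℝ} (hy : 1 ≤ y) : 1 ≤ cr y := Real.one_le_rpow hy (by norm_num)

lemma cr_scale {c y z : ℝ} (hc : 1 ≤ c) (hy : 0 ≤ y) (hz : 0 ≤ z) (h : y ≤ c * z) :
    cr y ≤ c * cr z := by
  have h1 : cr y ^ 3 ≤ (c * cr z) ^ 3 := by
    rw [cr_pow hy, mul_pow, cr_pow hz]
    have h2 : c ≤ c ^ 3 := le_self_pow₀ hc (by norm_num)
    exact h.trans (mul_le_mul_of_nonneg_right h2 hz)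
  exact le_of_pow_le_pow_left₀ (by norm_num) (mul_nonneg (by linarith) (cr_nonneg hz)) h1

/-- probability that a pair has level `k` -/
theorem pair_probT [IsProbabilityMeasure μ] (hμ : LN μ) {n k : ℕ} (hk : 1 ≤ k)
    (hn : 2 * k + 2 ≤ n) {i j : Fin n} (hij : i ≠ j) {β : ℝ} (hβ : 0 ≤ β)
    (hW : ∀ δ : ℝ, 0 < δ → δ ≤ (k : ℝ) / ((n - 2 : ℕ) : ℝ) →
      (ee μ (WA μ ((k : ℝ) / ((n - 2 : ℕ) : ℝ)) δ)).toReal ^ 3 ≤
        700000 ^ 3 * (δ ^ 2 * (δ + β))) :
    Measure.pi (fun _ : Fin n => μ) {P | P ∈ Ev2 Set.univ i j ∧ lev P (i, j) = k} ≤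
      ENNReal.ofReal (700004 * SS * (1 / ((n - 2 : ℕ) : ℝ) *
        cr (1 + ((n - 2 : ℕ) : ℝ) * β / Real.sqrt k))) := by
  classical
  set N := n - 2 with hN
  have hNk : 2 * k ≤ N := by omega
  have hN0 : (0 : ℝ) < N := by exact_mod_cast (by omega : 0 < N)
  have hk0 : (0 : ℝ) < k := by exact_mod_cast hk
  have hk1 : (1 : ℝ) ≤ k := by exact_mod_cast hk
  have hsk : 0 < Real.sqrt k := Real.sqrt_pos.mpr hk0
  have hsk1 : 1 ≤ Real.sqrt k := Real.one_le_sqrt.mpr hk1
  have hkN : (2 * k : ℝ) ≤ N := by exact_mod_cast hNk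
  set r := Real.exp (-(1 / 16)) with hr
  have hr0 : 0 < r := Real.exp_pos _
  have hr1 : r < 1 := by
    rw [hr, ← Real.exp_zero]; exact Real.exp_lt_exp.mpr (by norm_num)
  set α : ℝ := (k : ℝ) / N with hα
  have hα0 : 0 < α := by positivity
  set A1 : ℕ → Set ((ℝ × ℝ) × (ℝ × ℝ)) := fun l =>
    WA μ α (min ((l + 1) * (Real.sqrt k / N)) α) with hA1
  set A2 : ℕ → Set ((ℝ × ℝ) × (ℝ × ℝ)) := fun l => WA μ 0 (((l : ℝ) + 1) / N) with hA2
  have hA1m : ∀ l, MeasurableSet (A1 l) := fun l => meas_WA _ _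
  have hA2m : ∀ l, MeasurableSet (A2 l) := fun l => meas_WA _ _
  have m1 : ∀ i : Fin n, Measurable (fun P : Fin n → ℝ × ℝ => P i) := fun i => measurable_pi_apply i
  have m2 : Measurable (fun P : Fin n → ℝ × ℝ => (P i, P j)) := (m1 i).prodMk (m1 j)
  have mterm : ∀ (A : Set ((ℝ × ℝ) × (ℝ × ℝ))), MeasurableSet A → ∀ w : ℝ,
      Measurable (fun P : Fin n → ℝ × ℝ =>
        ENNReal.ofReal (w * (if (P i, P j) ∈ A then 1 else 0))) := by
    intro A hA w
    exact ((Measurable.ite (m2 hA) measurable_const measurable_const).const_mul w).ennreal_ofReal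
  -- integral bound
  have hint : Measure.pi (fun _ : Fin n => μ) {P | P ∈ Ev2 Set.univ i j ∧ lev P (i, j) = k} ≤
      ENNReal.ofReal (1 / Real.sqrt k) * (∑ l ∈ range (k + 1), ENNReal.ofReal (r ^ l) *
        ee μ (A1 l) + ∑ l ∈ range N, ENNReal.ofReal (r ^ l) * ee μ (A2 l)) := by
    rw [lev_prob hij k, ← lintegral_const_mul' _ _ (ENNReal.natCast_ne_top _)]
    calc ∫⁻ P in Ev2 Set.univ i j, ((n - 2).choose k : ℝ≥0∞) * ENNReal.ofReal
          (FF μ (P i) (P j) ^ k * (1 - FF μ (P i) (P j)) ^ (n - 2 - k))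
            ∂Measure.pi (fun _ : Fin n => μ)
        ≤ ∫⁻ P in Ev2 Set.univ i j, ENNReal.ofReal (1 / Real.sqrt k) *
          (∑ l ∈ range (k + 1), ENNReal.ofReal (r ^ l * (if (P i, P j) ∈ A1 l then 1 else 0)) +
           ∑ l ∈ range N, ENNReal.ofReal (r ^ l * (if (P i, P j) ∈ A2 l then 1 else 0)))
            ∂Measure.pi (fun _ : Fin n => μ) := by
          apply lintegral_mono
          intro P
          beta_reduce
          have h := dominate hk hNk (FF_nonneg (μ := μ) (P i) (P j)) (FF_le_one (P i) (P j))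
          have h' := ENNReal.ofReal_le_ofReal h
          have nn1 : ∀ l ∈ range (k + 1), 0 ≤ r ^ l * (if (P i, P j) ∈ A1 l then (1 : ℝ) else 0) := by
            intro l _; split_ifs <;> positivity
          have nn2 : ∀ l ∈ range N, 0 ≤ r ^ l * (if (P i, P j) ∈ A2 l then (1 : ℝ) else 0) := by
            intro l _; split_ifs <;> positivity
          rw [← ENNReal.ofReal_sum_of_nonneg nn1, ← ENNReal.ofReal_sum_of_nonneg nn2,
            ← ENNReal.ofReal_add (sum_nonneg nn1) (sum_nonneg nn2),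
            ← ENNReal.ofReal_mul (by positivity), ← ENNReal.ofReal_natCast,
            ← ENNReal.ofReal_mul (Nat.cast_nonneg _)]
          refine h'.trans (le_of_eq ?_)
          congr 1
      _ = _ := by
          rw [lintegral_const_mul' _ _ ENNReal.ofReal_ne_top]
          congr 1
          rw [lintegral_add_left (Finset.measurable_sum _ (fun l _ => mterm _ (hA1m l) _)),
            lintegral_finsetSum _ (fun l _ => mterm _ (hA1m l) _),
            lintegral_finsetSum _ (fun l _ => mterm _ (hA2m l) _)]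
          congr 1
          · exact sum_congr rfl (fun l _ => shell_int hij (hA1m l))
          · exact sum_congr rfl (fun l _ => shell_int hij (hA2m l))
  -- bounds for the shells
  set Y : ℝ := 1 + (N : ℝ) * β / Real.sqrt k with hY
  have hY1 : 1 ≤ Y := by
    have : 0 ≤ (N : ℝ) * β / Real.sqrt k := by positivity
    linarith
  have hcY : 1 ≤ cr Y := cr_one_le hY1
  have hcY3 : cr Y ^ 3 = Y := cr_pow (by linarith)
  have hb1 : ∀ l : ℕ, (ee μ (A1 l)).toReal ≤ 700000 * (Real.sqrt k / N * cr Y) * (l + 1) := by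
    intro l
    set δ := min (((l : ℝ) + 1) * (Real.sqrt k / N)) α with hδ
    have hδ0 : 0 < δ := lt_min (by positivity) hα0
    have h := hW δ hδ0 (min_le_right _ _)
    have hδ1 : δ ≤ ((l : ℝ) + 1) * (Real.sqrt k / N) := min_le_left _ _
    have hl0 : (0 : ℝ) ≤ l := Nat.cast_nonneg l
    have h3 : β ≤ (l + 1) * β := by nlinarith
    have h4 : (ee μ (A1 l)).toReal ^ 3 ≤ (700000 * (Real.sqrt k / N * cr Y) * (l + 1)) ^ 3 := by
      refine h.trans ?_
      have h5 : δ + β ≤ (l + 1) * (Real.sqrt k / N + β) := by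
        rw [mul_add]
        linarith
      have h6 : δ ^ 2 ≤ (((l : ℝ) + 1) * (Real.sqrt k / N)) ^ 2 :=
        pow_le_pow_left₀ hδ0.le hδ1 2
      have h7 : Real.sqrt k / N * Y = Real.sqrt k / N + β := by
        rw [hY]
        field_simp
      calc 700000 ^ 3 * (δ ^ 2 * (δ + β)) ≤
          700000 ^ 3 * ((((l : ℝ) + 1) * (Real.sqrt k / N)) ^ 2 *
            ((l + 1) * (Real.sqrt k / N + β))) := by gcongr
        _ = 700000 ^ 3 * (l + 1) ^ 3 * (Real.sqrt k / N) ^ 2 * (Real.sqrt k / N + β) := by ring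
        _ = 700000 ^ 3 * (l + 1) ^ 3 * (Real.sqrt k / N) ^ 2 * (Real.sqrt k / N * cr Y ^ 3) := by
          rw [hcY3, h7]
        _ = _ := by ring
    exact le_of_pow_le_pow_left₀ (by norm_num) (by positivity) h4
  have hb2 : ∀ l : ℕ, (ee μ (A2 l)).toReal ≤ 4 / N * (l + 1) := by
    intro l
    have := ee_zero hμ (t := ((l : ℝ) + 1) / N) (by positivity)
    refine this.trans (le_of_eq ?_)
    ring
  have hfin : ∀ A, ee μ A ≠ ⊤ := fun A => ne_top_of_le_ne_top ENNReal.one_ne_top (ee_le_one A)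
  have hs1 : ∑ l ∈ range (k + 1), ENNReal.ofReal (r ^ l) * ee μ (A1 l) ≤
      ENNReal.ofReal (700000 * (Real.sqrt k / N * cr Y) * SS) := by
    calc ∑ l ∈ range (k + 1), ENNReal.ofReal (r ^ l) * ee μ (A1 l) ≤
          ∑ l ∈ range (k + 1), ENNReal.ofReal (700000 * (Real.sqrt k / N * cr Y) *
            (((l : ℝ) + 1) * r ^ l)) := by
          apply sum_le_sum
          intro l _
          rw [← ENNReal.ofReal_toReal (hfin (A1 l)), ← ENNReal.ofReal_mul (by positivity)]
          apply ENNReal.ofReal_le_ofReal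
          have := mul_le_mul_of_nonneg_left (hb1 l) (pow_nonneg hr0.le l)
          refine this.trans (le_of_eq ?_)
          ring
      _ = ENNReal.ofReal (700000 * (Real.sqrt k / N * cr Y) *
            ∑ l ∈ range (k + 1), (((l : ℝ) + 1) * r ^ l)) := by
          rw [← ENNReal.ofReal_sum_of_nonneg (fun l _ => by positivity), mul_sum]
      _ ≤ _ := by
          apply ENNReal.ofReal_le_ofReal
          apply mul_le_mul_of_nonneg_left _ (by positivity)
          exact sum_geom hr0.le hr1 (k + 1)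
  have hs2 : ∑ l ∈ range N, ENNReal.ofReal (r ^ l) * ee μ (A2 l) ≤
      ENNReal.ofReal (4 / N * SS) := by
    calc ∑ l ∈ range N, ENNReal.ofReal (r ^ l) * ee μ (A2 l) ≤
          ∑ l ∈ range N, ENNReal.ofReal (4 / N * (((l : ℝ) + 1) * r ^ l)) := by
          apply sum_le_sum
          intro l _
          rw [← ENNReal.ofReal_toReal (hfin (A2 l)), ← ENNReal.ofReal_mul (by positivity)]
          apply ENNReal.ofReal_le_ofReal
          have := mul_le_mul_of_nonneg_left (hb2 l) (pow_nonneg hr0.le l)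
          refine this.trans (le_of_eq ?_)
          ring
      _ = ENNReal.ofReal (4 / N * ∑ l ∈ range N, (((l : ℝ) + 1) * r ^ l)) := by
          rw [← ENNReal.ofReal_sum_of_nonneg (fun l _ => by positivity), mul_sum]
      _ ≤ _ := by
          apply ENNReal.ofReal_le_ofReal
          apply mul_le_mul_of_nonneg_left _ (by positivity)
          exact sum_geom hr0.le hr1 N
  have hSS := SS_ge
  refine hint.trans ((mul_le_mul_right (add_le_add hs1 hs2) _).trans ?_)
  rw [← ENNReal.ofReal_add (by positivity) (by positivity), ← ENNReal.ofReal_mul (by positivity)]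
  apply ENNReal.ofReal_le_ofReal
  have e1 : 1 / Real.sqrt k * (700000 * (Real.sqrt k / N * cr Y) * SS + 4 / N * SS) =
      SS * (1 / N) * (700000 * cr Y + 4 * (1 / Real.sqrt k)) := by
    field_simp
  rw [e1]
  have e2 : 1 / Real.sqrt k ≤ 1 := by
    rw [div_le_one hsk]
    exact hsk1
  have e5 : 700000 * cr Y + 4 * (1 / Real.sqrt k) ≤ 700004 * cr Y := by linarith
  calc SS * (1 / N) * (700000 * cr Y + 4 * (1 / Real.sqrt k)) ≤
      SS * (1 / N) * (700004 * cr Y) := mul_le_mul_of_nonneg_left e5 (by positivity)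
    _ = _ := by ring

open Classical in
/-- expected number of crossings of level `k`, for `k` in the lower half -/
theorem level_boundT [IsProbabilityMeasure μ] (hμ : LN μ) {n k : ℕ} (hn : 2 * k + 2 ≤ n)
    {β : ℝ} (hβ : 0 ≤ β)
    (hW : ∀ δ : ℝ, 0 < δ → δ ≤ (k : ℝ) / ((n - 2 : ℕ) : ℝ) →
      (ee μ (WA μ ((k : ℝ) / ((n - 2 : ℕ) : ℝ)) δ)).toReal ^ 3 ≤
        700000 ^ 3 * (δ ^ 2 * (δ + β))) :
    ∫⁻ P, (((T P).filter (fun q => lev P q = k)).card : ℝ≥0∞) ∂Measure.pi (fun _ : Fin n => μ) ≤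
      ENNReal.ofReal (2800016 * SS * n * cr (1 + n / Real.sqrt (k + 1) * β)) := by
  have hSS := SS_ge
  have hnn : (0 : ℝ) ≤ n := Nat.cast_nonneg n
  have hY : (1 : ℝ) ≤ 1 + n / Real.sqrt (k + 1) * β := by
    have : (0 : ℝ) ≤ n / Real.sqrt (k + 1) * β := by positivity
    linarith
  have hcY := cr_one_le hY
  rcases Nat.eq_zero_or_pos k with h0 | h0
  · subst h0
    refine (zero_lev hμ n).trans ?_
    rw [← ENNReal.ofReal_natCast]
    apply ENNReal.ofReal_le_ofReal
    have h2 : (1 : ℝ) ≤ 2800016 * SS := by linarith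
    calc (n : ℝ) = 1 * n * 1 := by ring
      _ ≤ 2800016 * SS * n * cr (1 + n / Real.sqrt ((0 : ℕ) + 1) * β) := by
          apply mul_le_mul _ hcY zero_le_one (by positivity)
          exact mul_le_mul_of_nonneg_right h2 hnn
  · have hk0 : (0 : ℝ) < k := by exact_mod_cast h0
    have hk1 : (1 : ℝ) ≤ k := by exact_mod_cast h0
    rw [E_lev k]
    have hn4 : (4 : ℝ) ≤ n := by
      have : 4 ≤ n := by omega
      exact_mod_cast this
    have hNr : ((n - 2 : ℕ) : ℝ) = n - 2 := by rw [Nat.cast_sub (by omega)]; norm_num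
    calc ∑ q ∈ (univ : Finset (Fin n)).offDiag, Measure.pi (fun _ : Fin n => μ)
          {P | P ∈ Ev2 Set.univ q.1 q.2 ∧ lev P (q.1, q.2) = k} ≤
          ∑ q ∈ (univ : Finset (Fin n)).offDiag,
            ENNReal.ofReal (700004 * SS * (1 / ((n - 2 : ℕ) : ℝ) *
              cr (1 + ((n - 2 : ℕ) : ℝ) * β / Real.sqrt k))) := by
          apply sum_le_sum
          intro q hq
          rw [mem_offDiag] at hq
          exact pair_probT hμ h0 hn hq.2.2 hβ hW
      _ = ENNReal.ofReal ((n * n - n) *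
            (700004 * SS * (1 / ((n - 2 : ℕ) : ℝ) *
              cr (1 + ((n - 2 : ℕ) : ℝ) * β / Real.sqrt k)))) := by
          rw [sum_const, offDiag_card, card_univ, Fintype.card_fin, nsmul_eq_mul,
            ← ENNReal.ofReal_natCast, ← ENNReal.ofReal_mul (Nat.cast_nonneg _),
            Nat.cast_sub (Nat.le_mul_self n)]
          push_cast
          rfl
      _ ≤ _ := by
          apply ENNReal.ofReal_le_ofReal
          rw [hNr]
          have hsk : 0 < Real.sqrt k := Real.sqrt_pos.mpr hk0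
          have h1 : ((n : ℝ) * n - n) * (1 / (n - 2)) ≤ 2 * n := by
            rw [mul_one_div, div_le_iff₀ (by linarith)]
            nlinarith
          have h2 : β / Real.sqrt k ≤ 2 * (β / Real.sqrt (k + 1)) := by
            have h3 : Real.sqrt (k + 1) ≤ 2 * Real.sqrt k := by
              rw [show (2 : ℝ) * Real.sqrt k = Real.sqrt (4 * k) by
                rw [Real.sqrt_mul (by norm_num), show (4 : ℝ) = 2 ^ 2 by norm_num,
                  Real.sqrt_sq (by norm_num)]]
              apply Real.sqrt_le_sqrt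
              linarith
            have h4 : 0 < Real.sqrt ((k : ℝ) + 1) := Real.sqrt_pos.mpr (by linarith)
            rw [← mul_div_assoc, div_le_div_iff₀ hsk h4]
            nlinarith
          have h5 : 0 ≤ β / Real.sqrt ((k : ℝ) + 1) := by positivity
          have h6 : 1 + ((n : ℝ) - 2) * β / Real.sqrt k ≤
              2 * (1 + n / Real.sqrt (k + 1) * β) := by
            have e1 : ((n : ℝ) - 2) * β / Real.sqrt k = (n - 2) * (β / Real.sqrt k) := by ring
            have e2 : (n : ℝ) / Real.sqrt (k + 1) * β = n * (β / Real.sqrt (k + 1)) := by ring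
            rw [e1, e2]
            have e3 : ((n : ℝ) - 2) * (β / Real.sqrt k) ≤ n * (2 * (β / Real.sqrt (k + 1))) := by
              apply mul_le_mul (by linarith) h2 (by positivity) hnn
            linarith
          have h7 : 0 ≤ 1 + ((n : ℝ) - 2) * β / Real.sqrt k := by
            have : 0 ≤ ((n : ℝ) - 2) * β / Real.sqrt k :=
              div_nonneg (mul_nonneg (by linarith) hβ) hsk.le
            linarith
          have h8 := cr_scale (by norm_num : (1 : ℝ) ≤ 2) h7 (by linarith) h6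
          have h9 := cr_nonneg h7
          calc ((n : ℝ) * n - n) * (700004 * SS * (1 / (n - 2) *
                cr (1 + ((n : ℝ) - 2) * β / Real.sqrt k))) =
              (((n : ℝ) * n - n) * (1 / (n - 2))) * (700004 * SS *
                cr (1 + ((n : ℝ) - 2) * β / Real.sqrt k)) := by ring
            _ ≤ 2 * n * (700004 * SS * (2 * cr (1 + n / Real.sqrt (k + 1) * β))) := by
                apply mul_le_mul h1 _ (by positivity) (by positivity)
                exact mul_le_mul_of_nonneg_left h8 (by positivity)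
            _ = _ := by ring

end Pool.Agent.U272.IC
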