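import Pool.Agent.U272.IC.Disc
import Pool.Agent.H189R2.Iid.Final

/-!
# Two independent lines seldom cross close to a curve
-/

set_option autoImplicit false

namespace Pool.Agent.U272.IC

open Finset MeasureTheory Filter Pool.Agent.H189R2.Lev Pool.Agent.H189R2.Iid
open Pool.Agent.U272.DP (CrossesOnce)
open scoped ENNReal

/-- the mass of the lines strictly between a crossing and the curve -/
noncomputable def BB (g : ℝ → ℝ) (μ : Measure (ℝ × ℝ)) (p q : ℝ × ℝ) : ℝ := (μ (bet g p q)).toReal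

/-- crossings with mass at most `ρ` between them and the curve -/
def NA (g : ℝ → ℝ) (μ : Measure (ℝ × ℝ)) (ρ : ℝ) : Set ((ℝ × ℝ) × (ℝ × ℝ)) :=
  {z | BB g μ z.1 z.2 ≤ ρ}

variable {g : ℝ → ℝ} {μ : Measure (ℝ × ℝ)}

theorem meas_bet (hg : Measurable g) {Ω : Type*} [MeasurableSpace Ω] {f h r : Ω → ℝ × ℝ}
    (hf : Measurable f) (hh : Measurable h) (hr : Measurable r) :
    MeasurableSet {ω | r ω ∈ bet g (f ω) (h ω)} := by
  have m1 := measurable_X2 hf hh
  have m2 := measurable_Y2 hf hh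
  have m3 : Measurable (fun ω => (r ω).1 * X2 (f ω) (h ω) + (r ω).2) :=
    (hr.fst.mul m1).add hr.snd
  have m4 : Measurable (fun ω => g (X2 (f ω) (h ω))) := hg.comp m1
  exact ((measurableSet_lt m2 m3).inter (measurableSet_lt m3 m4)).union
    ((measurableSet_lt m4 m3).inter (measurableSet_lt m3 m2))

theorem measurable_BB [IsProbabilityMeasure μ] (hg : Measurable g) :
    Measurable (fun z : (ℝ × ℝ) × (ℝ × ℝ) => BB g μ z.1 z.2) := by
  unfold BB
  have h : MeasurableSet {w : ((ℝ × ℝ) × (ℝ × ℝ)) × (ℝ × ℝ) | w.2 ∈ bet g w.1.1 w.1.2} :=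
    meas_bet hg measurable_fst.fst measurable_fst.snd measurable_snd
  exact (measurable_measure_prodMk_left h).ennreal_toReal

theorem meas_NA [IsProbabilityMeasure μ] (hg : Measurable g) (ρ : ℝ) :
    MeasurableSet (NA g μ ρ) :=
  measurableSet_le (measurable_BB hg) measurable_const

/-- the set between the crossing of the lines `i`, `j` and the curve -/
def betRS (hg : Measurable g) {n : ℕ} {U : Finset (Fin n)} (i j : Fin n)
    (hU : ∀ l ∈ U, l ≠ i ∧ l ≠ j) : RandSet n U (ℝ × ℝ) where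
  Lo P y := y ∈ bet g (P i) (P j)
  meas := by
    have m1 : ∀ i : Fin n, Measurable (fun p : (Fin n → ℝ × ℝ) × (ℝ × ℝ) => p.1 i) :=
      fun i => (measurable_pi_apply i).comp measurable_fst
    exact meas_bet hg (m1 i) (m1 j) measurable_snd
  inv := by
    intro l hl P y z
    rw [Function.update_of_ne (hU l hl).1.symm, Function.update_of_ne (hU l hl).2.symm]

lemma fst_notMem_bet (p q : ℝ × ℝ) : p ∉ bet g p q := by
  rintro (h | h)
  · exact lt_irrefl _ h.1
  · exact lt_irrefl _ h.2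

lemma snd_notMem_bet {p q : ℝ × ℝ} (hpq : q.1 < p.1) : q ∉ bet g p q := by
  have h0 : p.1 - q.1 ≠ 0 := by linarith
  have e : q.1 * X2 p q + q.2 = Y2 p q := by
    unfold Y2 X2
    field_simp
    ring
  rintro (h | h)
  · rw [e] at h
    exact lt_irrefl _ h.1
  · rw [e] at h
    exact lt_irrefl _ h.2

/-- the event that no line is between the crossing of `i` and `j` and the curve -/
def R0 (g : ℝ → ℝ) {n : ℕ} (i j : Fin n) : Set (Fin n → ℝ × ℝ) :=
  {P | P ∈ Ev2 Set.univ i j ∧ ∀ l, P l ∉ bet g (P i) (P j)}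

theorem meas_R0 (hg : Measurable g) {n : ℕ} (i j : Fin n) : MeasurableSet (R0 g i j) := by
  have m1 : ∀ i : Fin n, Measurable (fun P : Fin n → ℝ × ℝ => P i) := fun i => measurable_pi_apply i
  refine (meas_Ev2 MeasurableSet.univ i j).inter ?_
  have : {P : Fin n → ℝ × ℝ | ∀ l, P l ∉ bet g (P i) (P j)} =
      ⋂ l, {P | P l ∈ bet g (P i) (P j)}ᶜ := by
    ext P
    simp
  show MeasurableSet {P : Fin n → ℝ × ℝ | ∀ l, P l ∉ bet g (P i) (P j)}
  rw [this]
  exact MeasurableSet.iInter fun l => (meas_bet hg (m1 i) (m1 j) (m1 l)).compl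

/-- its probability -/
theorem R0_prob [IsProbabilityMeasure μ] (hg : Measurable g) {n : ℕ} {i j : Fin n} (hij : i ≠ j) :
    Measure.pi (fun _ : Fin n => μ) (R0 g i j) =
      ∫⁻ P in Ev2 Set.univ i j, ENNReal.ofReal ((1 - BB g μ (P i) (P j)) ^ (n - 2))
        ∂Measure.pi (fun _ : Fin n => μ) := by
  classical
  set U : Finset (Fin n) := (univ.erase i).erase j with hU
  have hUl : ∀ l ∈ U, l ≠ i ∧ l ≠ j := by
    intro l hl
    rw [hU, mem_erase, mem_erase] at hl
    exact ⟨hl.2.1, hl.1⟩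
  have hUc : U.card = n - 2 := by
    rw [hU, card_erase_of_mem (by rw [mem_erase]; exact ⟨hij.symm, mem_univ _⟩),
      card_erase_of_mem (mem_univ _), card_univ, Fintype.card_fin]
    rfl
  have h := (betRS hg i j hUl).binomial μ (B := Ev2 Set.univ i j)
    (meas_Ev2 MeasurableSet.univ i j) (fun l hl P y =>
      Ev2_update (hUl l hl).1.symm (hUl l hl).2.symm P y) 0
  rw [hUc] at h
  have e : R0 g i j = {P | P ∈ Ev2 Set.univ i j ∧ (betRS hg i j hUl).cnt P = 0} := by
    ext P
    refine and_congr_right (fun hP => ?_)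
    unfold RandSet.cnt
    rw [card_eq_zero, filter_eq_empty_iff]
    constructor
    · intro h l _
      exact h l
    · intro h l
      by_cases hl : l ∈ U
      · exact h hl
      · rw [hU, mem_erase, mem_erase] at hl
        push Not at hl
        by_cases hlj : l = j
        · rw [hlj]
          exact snd_notMem_bet hP.1
        · by_cases hli : l = i
          · rw [hli]
            exact fst_notMem_bet _ _
          · exact absurd (mem_univ l) (hl hlj hli)
  rw [e, h, Nat.choose_zero_right, Nat.cast_one, one_mul]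
  apply lintegral_congr
  intro P
  rw [pow_zero, one_mul, Nat.sub_zero]
  rfl

open Classical in
/-- the sum of the probabilities -/
theorem R0_sum [IsProbabilityMeasure μ] (hμ : LN μ) (hg : Measurable g)
    (hc : ∀ᵐ l ∂μ, CrossesOnce g l) (n : ℕ) :
    ∑ q ∈ (univ : Finset (Fin n)).offDiag,
      Measure.pi (fun _ : Fin n => μ) (R0 g q.1 q.2) ≤ 33 * n := by
  set π := Measure.pi (fun _ : Fin n => μ) with hπ
  have h1 : ∀ P : Fin n → ℝ × ℝ, (T P).filter (fun q => ∀ l, P l ∉ bet g (P q.1) (P q.2)) =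
      univ.filter (fun q : Fin n × Fin n => P ∈ R0 g q.1 q.2) := by
    intro P
    ext q
    rw [mem_filter, mem_T, mem_filter]
    constructor
    · rintro ⟨h1, h2⟩; exact ⟨mem_univ _, ⟨h1, trivial⟩, h2⟩
    · rintro ⟨_, ⟨h1, _⟩, h2⟩; exact ⟨h1, h2⟩
  have h2 : ∫⁻ P, (((T P).filter (fun q => ∀ l, P l ∉ bet g (P q.1) (P q.2))).card : ℝ≥0∞) ∂π =
      ∑ q : Fin n × Fin n, π (R0 g q.1 q.2) := by
    simp_rw [h1]
    exact lintegral_card π (fun q : Fin n × Fin n => R0 g q.1 q.2) (fun q => meas_R0 hg q.1 q.2)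
  have h3 : ∑ q ∈ (univ : Finset (Fin n)).offDiag, π (R0 g q.1 q.2) ≤
      ∑ q : Fin n × Fin n, π (R0 g q.1 q.2) :=
    sum_le_sum_of_subset (subset_univ _)
  refine h3.trans ?_
  rw [← h2]
  calc _ ≤ ∫⁻ P : Fin n → ℝ × ℝ, ((33 * n : ℕ) : ℝ≥0∞) ∂π := by
        apply lintegral_mono_ae
        have hae : ∀ᵐ P ∂π, ∀ i : Fin n, CrossesOnce g (P i) := by
          rw [ae_all_iff]
          intro i
          exact (measurePreserving_eval (fun _ : Fin n => μ) i).quasiMeasurePreserving.ae hc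
        filter_upwards [ae_GP hμ n, hae] with P hP hcP
        exact_mod_cast disc_le hP hcP
    _ = 33 * n := by
        rw [lintegral_const, measure_univ, mul_one]
        push_cast
        rfl

theorem BB_nonneg (p q : ℝ × ℝ) : 0 ≤ BB g μ p q := ENNReal.toReal_nonneg

theorem BB_le_one [IsProbabilityMeasure μ] (p q : ℝ × ℝ) : BB g μ p q ≤ 1 :=
  ENNReal.toReal_le_of_le_ofReal zero_le_one (by simpa using prob_le_one)

/-- crossings close to the curve are rare -/
theorem ee_near [IsProbabilityMeasure μ] (hμ : LN μ) (hg : Measurable g)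
    (hc : ∀ᵐ l ∂μ, CrossesOnce g l) {t : ℝ} (ht : 0 < t) :
    (ee μ (NA g μ t)).toReal ≤ 132 * t := by
  classical
  set e := (ee μ (NA g μ t)).toReal with he
  have he0 : 0 ≤ e := ENNReal.toReal_nonneg
  have he1 : e ≤ 1 := ENNReal.toReal_le_of_le_ofReal zero_le_one (by simpa using ee_le_one _)
  by_cases ht1 : 1 ≤ 132 * t
  · linarith
  push Not at ht1
  set M := ⌊1 / (2 * t)⌋₊ with hM
  have hM1 : (M : ℝ) ≤ 1 / (2 * t) := Nat.floor_le (by positivity)
  have hM2 : 1 / (2 * t) < M + 1 := Nat.lt_floor_add_one _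
  rw [le_div_iff₀ (by positivity)] at hM1
  rw [div_lt_iff₀ (by positivity)] at hM2
  have hpow : 1 / 2 ≤ (1 - t) ^ M := by
    have := one_add_mul_le_pow (a := -t) (by linarith) M
    have h2 : 1 + (M : ℝ) * -t ≤ (1 - t) ^ M := by
      rw [sub_eq_add_neg]; exact this
    nlinarith
  set n := M + 2 with hn
  have hz := R0_sum hμ hg hc n
  have hterm : ∀ q ∈ (univ : Finset (Fin n)).offDiag, ENNReal.ofReal (1 / 2 * e) ≤
      Measure.pi (fun _ : Fin n => μ) (R0 g q.1 q.2) := by
    intro q hq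
    rw [mem_offDiag] at hq
    rw [R0_prob hg hq.2.2]
    have hn2 : n - 2 = M := by omega
    rw [hn2]
    calc ENNReal.ofReal (1 / 2 * e) = ENNReal.ofReal (1 / 2) * ee μ (NA g μ t) := by
          rw [ENNReal.ofReal_mul (by norm_num), he, ENNReal.ofReal_toReal
            (ne_top_of_le_ne_top ENNReal.one_ne_top (ee_le_one _))]
      _ = ENNReal.ofReal (1 / 2) * Measure.pi (fun _ : Fin n => μ) (Ev2 (NA g μ t) q.1 q.2) := by
          rw [pi_Ev2 (meas_NA hg t) hq.2.2]
      _ = ∫⁻ P in Ev2 (NA g μ t) q.1 q.2, ENNReal.ofReal (1 / 2)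
            ∂Measure.pi (fun _ : Fin n => μ) := by rw [setLIntegral_const]
      _ ≤ ∫⁻ P in Ev2 (NA g μ t) q.1 q.2, ENNReal.ofReal ((1 - BB g μ (P q.1) (P q.2)) ^ M)
          ∂Measure.pi (fun _ : Fin n => μ) := by
          apply setLIntegral_mono' (meas_Ev2 (meas_NA hg t) q.1 q.2)
          intro P hP
          apply ENNReal.ofReal_le_ofReal
          refine hpow.trans ?_
          have h1 : BB g μ (P q.1) (P q.2) ≤ t := hP.2
          exact pow_le_pow_left₀ (by linarith) (by linarith) M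
      _ ≤ ∫⁻ P in Ev2 Set.univ q.1 q.2, ENNReal.ofReal ((1 - BB g μ (P q.1) (P q.2)) ^ M)
          ∂Measure.pi (fun _ : Fin n => μ) :=
          lintegral_mono_set (fun P hP => ⟨hP.1, trivial⟩)
  have hsum := (sum_le_sum hterm).trans hz
  rw [sum_const, offDiag_card, card_univ, Fintype.card_fin, nsmul_eq_mul] at hsum
  have hfin : (33 * n : ℝ≥0∞) ≠ ⊤ := ENNReal.mul_ne_top (by norm_num) (ENNReal.natCast_ne_top n)
  have h1 := ENNReal.toReal_mono hfin hsum
  rw [ENNReal.toReal_mul, ENNReal.toReal_natCast, ENNReal.toReal_mul, ENNReal.toReal_natCast,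
    ENNReal.toReal_ofReal (by positivity), Nat.cast_sub (Nat.le_mul_self n)] at h1
  push_cast at h1
  have h33 : (33 : ℝ≥0∞).toReal = 33 := by norm_num
  rw [h33] at h1
  have hn0 : (0 : ℝ) < n := by positivity
  have h2 : (n : ℝ) * (((n : ℝ) - 1) * (1 / 2 * e)) ≤ n * 33 := by linarith
  have h3 := le_of_mul_le_mul_left h2 hn0
  have hnM : (n : ℝ) - 1 = M + 1 := by rw [hn]; push_cast; ring
  rw [hnM] at h3
  nlinarith

/-- the window of masses is close to the curve -/
theorem WA_sub [IsProbabilityMeasure μ] (hg : Measurable g) {α δ κ ε : ℝ}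
    (hκ : ∀ x, |(μ {l | l.1 * x + l.2 < g x}).toReal - κ| ≤ ε) :
    WA μ α δ ⊆ NA g μ (δ + (|α - κ| + ε)) := by
  rintro ⟨p, q⟩ h
  have h1 : |FF μ p q - α| ≤ δ := h
  show BB g μ p q ≤ δ + (|α - κ| + ε)
  have h2 := hκ (X2 p q)
  have h3 := abs_le.1 h1
  have h4 := abs_le.1 h2
  have h5 := abs_sub_le_iff.1 (le_refl |α - κ|)
  have m1 : MeasurableSet {r : ℝ × ℝ | r.1 * X2 p q + r.2 < g (X2 p q)} :=
    measurableSet_lt ((measurable_fst.mul measurable_const).add measurable_snd) measurable_const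
  have m3 : MeasurableSet {r : ℝ × ℝ | r.1 * X2 p q + r.2 < Y2 p q} :=
    measurableSet_lt ((measurable_fst.mul measurable_const).add measurable_snd) measurable_const
  have key : ∀ {A B C : Set (ℝ × ℝ)}, MeasurableSet B → A ∩ B = ∅ → A ∪ B ⊆ C →
      (μ A).toReal + (μ B).toReal ≤ (μ C).toReal := by
    intro A B C hB hAB hC
    rw [← ENNReal.toReal_add (measure_ne_top _ _) (measure_ne_top _ _),
      ← measure_union (Set.disjoint_iff_inter_eq_empty.2 hAB) hB]
    exact ENNReal.toReal_mono (measure_ne_top _ _) (measure_mono hC)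
  rcases le_total (Y2 p q) (g (X2 p q)) with hle | hle
  · have h6 := key (A := bet g p q) (B := {r : ℝ × ℝ | r.1 * X2 p q + r.2 < Y2 p q})
      (C := {r : ℝ × ℝ | r.1 * X2 p q + r.2 < g (X2 p q)}) m3 (by
        ext r
        simp only [Set.mem_inter_iff, Set.mem_empty_iff_false, iff_false]
        rintro ⟨h7 | h7, h8⟩
        · have h9 : r.1 * X2 p q + r.2 < Y2 p q := h8
          linarith [h7.1]
        · linarith [h7.1, h7.2]) (by
        rintro r (h7 | h7)
        · rcases h7 with h7 | h7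
          · exact h7.2
          · exfalso
            linarith [h7.1, h7.2]
        · have h9 : r.1 * X2 p q + r.2 < Y2 p q := h7
          exact lt_of_lt_of_le h9 hle)
    have h7 : (μ (bet g p q)).toReal + FF μ p q ≤
      (μ {r : ℝ × ℝ | r.1 * X2 p q + r.2 < g (X2 p q)}).toReal := h6
    have h8 : BB g μ p q = (μ (bet g p q)).toReal := rfl
    linarith [h3.1, h4.2, neg_abs_le (α - κ)]
  · have h6 := key (A := bet g p q) (B := {r : ℝ × ℝ | r.1 * X2 p q + r.2 < g (X2 p q)})
      (C := {r : ℝ × ℝ | r.1 * X2 p q + r.2 < Y2 p q}) m1 (by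
        ext r
        simp only [Set.mem_inter_iff, Set.mem_empty_iff_false, iff_false]
        rintro ⟨h7 | h7, h8⟩
        · linarith [h7.1, h7.2]
        · have h9 : r.1 * X2 p q + r.2 < g (X2 p q) := h8
          linarith [h7.1]) (by
        rintro r (h7 | h7)
        · rcases h7 with h7 | h7
          · exfalso
            linarith [h7.1, h7.2]
          · exact h7.2
        · have h9 : r.1 * X2 p q + r.2 < g (X2 p q) := h7
          exact lt_of_lt_of_le h9 hle)
    have h7 : (μ (bet g p q)).toReal + (μ {r : ℝ × ℝ | r.1 * X2 p q + r.2 < g (X2 p q)}).toReal ≤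
      FF μ p q := h6
    have h8 : BB g μ p q = (μ (bet g p q)).toReal := rfl
    linarith [h3.2, h4.1, le_abs_self (α - κ)]

end Pool.Agent.U272.IC
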