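import Pool.Agent.U272.IC.Final

/-!
# Laws which are invariant under a reflection
-/

set_option autoImplicit false

namespace Pool.Agent.U272.IC

open MeasureTheory Pool.Agent.H189R2.Iid
open Pool.Agent.U272.DP (CrossesOnce)
open KLev.Levels (height)
open scoped ENNReal

variable {μ : Measure (ℝ × ℝ)}

lemma mass_split [IsProbabilityMeasure μ] (hμ : LN μ) (x y : ℝ) :
    (μ {l : ℝ × ℝ | l.1 * x + l.2 < y}).toReal + (μ {l : ℝ × ℝ | y < l.1 * x + l.2}).toReal = 1 := by
  have m0 : Measurable (fun r : ℝ × ℝ => r.1 * x + r.2) :=
    (measurable_fst.mul measurable_const).add measurable_snd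
  have e2 : μ {l : ℝ × ℝ | l.1 * x + l.2 = y} = 0 := by
    have := hμ x 1 y (Or.inr one_ne_zero)
    refine measure_mono_null ?_ this
    intro l hl
    have hl' : l.1 * x + l.2 = y := hl
    show x * l.1 + 1 * l.2 = y
    linarith
  have h1 : μ ({l : ℝ × ℝ | l.1 * x + l.2 < y} ∪ ({l : ℝ × ℝ | l.1 * x + l.2 = y} ∪
      {l : ℝ × ℝ | y < l.1 * x + l.2})) = 1 := by
    rw [← measure_univ (μ := μ)]
    congr 1
    ext l
    simp only [Set.mem_union, Set.mem_univ, iff_true]
    exact lt_trichotomy (l.1 * x + l.2) y
  rw [measure_union _ ((measurableSet_eq_fun m0 measurable_const).union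
    (measurableSet_lt measurable_const m0)), measure_union _
    (measurableSet_lt measurable_const m0), e2, zero_add] at h1
  · rw [← ENNReal.toReal_add (measure_ne_top _ _) (measure_ne_top _ _), h1]
    rfl
  · rw [Set.disjoint_left]
    intro l h1 h2
    have h1' : l.1 * x + l.2 = y := h1
    have h2' : y < l.1 * x + l.2 := h2
    linarith
  · rw [Set.disjoint_left]
    rintro l h1 (h2 | h2)
    · have h1' : l.1 * x + l.2 < y := h1
      have h2' : l.1 * x + l.2 = y := h2
      linarith
    · have h1' : l.1 * x + l.2 < y := h1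
      have h2' : y < l.1 * x + l.2 := h2
      linarith

lemma sym_half [IsProbabilityMeasure μ] (hμ : LN μ) {o : ℝ × ℝ}
    (hs : μ.map (fun l => o + o - l) = μ) (x : ℝ) :
    (μ {l : ℝ × ℝ | l.1 * x + l.2 < height o x}).toReal = 1 / 2 := by
  have m0 : Measurable (fun r : ℝ × ℝ => r.1 * x + r.2) :=
    (measurable_fst.mul measurable_const).add measurable_snd
  have h1 := mass_split hμ x (height o x)
  have h2 : μ {l : ℝ × ℝ | l.1 * x + l.2 < height o x} =
      μ {l : ℝ × ℝ | height o x < l.1 * x + l.2} := by
    conv_lhs => rw [← hs]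
    have mf : Measurable (fun l : ℝ × ℝ => o + o - l) := by fun_prop
    rw [Measure.map_apply mf (measurableSet_lt m0 measurable_const)]
    congr 1
    ext l
    show (o + o - l).1 * x + (o + o - l).2 < height o x ↔ height o x < l.1 * x + l.2
    unfold height
    simp only [Prod.fst_sub, Prod.snd_sub, Prod.fst_add, Prod.snd_add]
    constructor <;> intro h <;> linarith
  rw [← h2] at h1
  linarith

lemma once_affine (o l : ℝ × ℝ) : CrossesOnce (height o) l := by
  have e : ∀ x, height l x - height o x = (l.1 - o.1) * x + (l.2 - o.2) := by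
    intro x
    unfold height
    ring
  rcases le_total o.1 l.1 with h | h
  · left
    intro x y hxy
    apply SignType.sign.monotone
    show height l x - height o x ≤ height l y - height o y
    rw [e, e]
    have : (l.1 - o.1) * x ≤ (l.1 - o.1) * y := mul_le_mul_of_nonneg_left hxy (by linarith)
    linarith
  · right
    intro x y hxy
    apply SignType.sign.monotone
    show height l y - height o y ≤ height l x - height o x
    rw [e, e]
    have : (l.1 - o.1) * y ≤ (l.1 - o.1) * x := mul_le_mul_of_nonpos_left hxy (by linarith)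
    linarith

lemma measurable_height (o : ℝ × ℝ) : Measurable (height o) := by
  unfold height
  fun_prop

end Pool.Agent.U272.IC
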