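import Pool.Agent.U272.IC.WinSlab
import Pool.Agent.U272.IC.Near

/-!
# Two independent lines seldom cross close to a curve with a prescribed mass below
-/

set_option autoImplicit false

namespace Pool.Agent.U272.IC

open Finset MeasureTheory Filter Pool.Agent.H189R2.Lev Pool.Agent.H189R2.Iid
open Pool.Agent.U272.DP (CrossesOnce)
open scoped ENNReal

variable {g : ℝ → ℝ} {μ : Measure (ℝ × ℝ)}

open Classical in
/-- the number of lines strictly between the crossing of the lines `i`, `j` and the curve -/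
noncomputable def bc (g : ℝ → ℝ) {n : ℕ} (P : Fin n → ℝ × ℝ) (q : Fin n × Fin n) : ℕ :=
  (univ.filter (fun l => P l ∈ bet g (P q.1) (P q.2))).card

theorem measurable_bc (hg : Measurable g) {n : ℕ} (q : Fin n × Fin n) :
    Measurable (fun P : Fin n → ℝ × ℝ => bc g P q) := by
  classical
  have : (fun P : Fin n → ℝ × ℝ => bc g P q) =
      fun P => ∑ l, if P l ∈ bet g (P q.1) (P q.2) then 1 else 0 := by
    funext P
    unfold bc
    rw [card_filter]
  rw [this]
  have m1 : ∀ i : Fin n, Measurable (fun P : Fin n → ℝ × ℝ => P i) := fun i => measurable_pi_apply i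
  exact Finset.measurable_sum _ (fun l _ =>
    Measurable.ite (meas_bet hg (m1 q.1) (m1 q.2) (m1 l)) measurable_const measurable_const)

theorem bad2_le [IsProbabilityMeasure μ] (hg : Measurable g) {n : ℕ} (i j : Fin n)
    {A : Set ((ℝ × ℝ) × (ℝ × ℝ))} (hA : MeasurableSet A) {ρ : ℝ} (hρ : 1 / 2 ≤ n * ρ)
    (hsub : A ⊆ NA g μ ρ) :
    18 * Measure.pi (fun _ : Fin n => μ)
      {P | P ∈ Ev2 A i j ∧ 7 * (n * ρ) < (bc g P (i, j) : ℝ)} ≤
      Measure.pi (fun _ : Fin n => μ) (Ev2 A i j) := by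
  classical
  set π := Measure.pi (fun _ : Fin n => μ) with hπ
  have hn0 : (0 : ℝ) < n := by exact_mod_cast i.pos
  have hρ0 : 0 < ρ := by
    by_contra h
    push Not at h
    nlinarith
  set U : Finset (Fin n) := (univ.erase i).erase j with hU
  have hUl : ∀ l ∈ U, l ≠ i ∧ l ≠ j := by
    intro l hl
    rw [hU, mem_erase, mem_erase] at hl
    exact ⟨hl.2.1, hl.1⟩
  have hUn : (U.card : ℝ) ≤ n := by
    have := card_le_univ U
    rw [Fintype.card_fin] at this
    exact_mod_cast this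
  set R := betRS hg i j hUl with hR
  have hcnt : ∀ P ∈ Ev2 A i j, R.cnt P = bc g P (i, j) := by
    intro P hP
    unfold RandSet.cnt bc
    congr 1
    ext l
    rw [mem_filter, mem_filter]
    constructor
    · rintro ⟨_, h⟩
      exact ⟨mem_univ _, h⟩
    · rintro ⟨_, h⟩
      refine ⟨?_, h⟩
      rw [hU, mem_erase, mem_erase]
      refine ⟨?_, ?_, mem_univ _⟩
      · rintro rfl
        exact snd_notMem_bet hP.1 h
      · rintro rfl
        exact fst_notMem_bet _ _ h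
  have hF : ∀ P ∈ Ev2 A i j, R.F μ P ≤ ρ := fun P hP => hsub hP.2
  have h1 := R.chebyshev μ (B := Ev2 A i j) (meas_Ev2 hA i j) (fun l hl P y =>
      Ev2_update (hUl l hl).1.symm (hUl l hl).2.symm P y) (v := ρ) hρ0.le (fun P hP => by
    have e2 := R.F_nonneg μ P
    have e3 := hF P hP
    nlinarith) (t := 6 * (n * ρ)) (by positivity)
  have hsub2 : {P | P ∈ Ev2 A i j ∧ 7 * (n * ρ) < (bc g P (i, j) : ℝ)} ⊆
      {P | P ∈ Ev2 A i j ∧ 6 * (n * ρ) ≤ |(R.cnt P : ℝ) - U.card * R.F μ P|} := by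
    rintro P ⟨hP, hlt⟩
    refine ⟨hP, ?_⟩
    rw [hcnt P hP]
    have e3 := hF P hP
    have e2 := R.F_nonneg μ P
    have e4 : (U.card : ℝ) * R.F μ P ≤ n * ρ := mul_le_mul hUn e3 e2 hn0.le
    refine le_trans ?_ (le_abs_self _)
    linarith
  have h2 := (mul_le_mul_right (measure_mono (μ := π) hsub2)
    (ENNReal.ofReal ((6 * (n * ρ)) ^ 2)))
  have h3 : ENNReal.ofReal (U.card * ρ) * π (Ev2 A i j) ≤
      ENNReal.ofReal (n * ρ) * π (Ev2 A i j) := by
    have h3' : (U.card : ℝ) * ρ ≤ n * ρ := mul_le_mul_of_nonneg_right hUn hρ0.le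
    have h3'' := ENNReal.ofReal_le_ofReal h3'
    gcongr
  have h4 := h2.trans (h1.trans h3)
  have h5' : ENNReal.ofReal (n * ρ * 18) ≤ ENNReal.ofReal ((6 * (n * ρ)) ^ 2) := by
    apply ENNReal.ofReal_le_ofReal
    nlinarith
  have h6 := (mul_le_mul_left h5' (π {P | P ∈ Ev2 A i j ∧ 7 * (n * ρ) < (bc g P (i, j) : ℝ)})).trans
    h4
  rw [ENNReal.ofReal_mul (by positivity), mul_assoc] at h6
  have h5 : ENNReal.ofReal (n * ρ) ≠ 0 := by
    rw [Ne, ENNReal.ofReal_eq_zero, not_le]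
    positivity
  have h7 := (ENNReal.mul_le_mul_iff_right h5 ENNReal.ofReal_ne_top).mp h6
  simpa using h7

/-- the good event -/
def Gd (g : ℝ → ℝ) (A : Set ((ℝ × ℝ) × (ℝ × ℝ))) {n : ℕ} (c L M : ℝ) (q : Fin n × Fin n) :
    Set (Fin n → ℝ × ℝ) :=
  {P | P ∈ Ev2 A q.1 q.2 ∧ |(lev P q : ℝ) - c| ≤ L ∧ (bc g P q : ℝ) ≤ M}

theorem meas_Gd (hg : Measurable g) {A : Set ((ℝ × ℝ) × (ℝ × ℝ))} (hA : MeasurableSet A) {n : ℕ}
    (c L M : ℝ) (q : Fin n × Fin n) : MeasurableSet (Gd g A c L M q) := by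
  have h1 : Measurable (fun P : Fin n → ℝ × ℝ => (lev P q : ℝ)) :=
    (measurable_from_top (f := fun k : ℕ => (k : ℝ))).comp (measurable_lev q)
  have h2 : Measurable (fun P : Fin n → ℝ × ℝ => (bc g P q : ℝ)) :=
    (measurable_from_top (f := fun k : ℕ => (k : ℝ))).comp (measurable_bc hg q)
  exact (meas_Ev2 hA q.1 q.2).inter ((measurableSet_le (h1.sub measurable_const).abs
    measurable_const).inter (measurableSet_le h2 measurable_const))

theorem good2 [IsProbabilityMeasure μ] (hg : Measurable g) {n : ℕ} {q : Fin n × Fin n}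
    (hq : q.1 ≠ q.2) {α δ s ρ : ℝ} (hα : 0 < α) (hα1 : α ≤ 1) (hδ0 : 0 ≤ δ) (hδ : δ ≤ α)
    (hs0 : 0 ≤ s) (hs : s ^ 2 = n * α) (hn : n * δ ≤ s) (hρ : 1 / 2 ≤ n * ρ)
    (hsub : WA μ α δ ⊆ NA g μ ρ) :
    8 / 9 * (ee μ (WA μ α δ)).toReal ≤ (Measure.pi (fun _ : Fin n => μ)
      (Gd g (WA μ α δ) (n * α) (7 * s + 8) (7 * (n * ρ)) q)).toReal := by
  classical
  obtain ⟨i, j⟩ := q
  simp only at hq
  set π := Measure.pi (fun _ : Fin n => μ) with hπ
  set B := Ev2 (WA μ α δ) i j with hB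
  have hBm : MeasurableSet B := meas_Ev2 (meas_WA α δ) _ _
  set U : Finset (Fin n) := (univ.erase i).erase j with hU
  have hUl : ∀ l ∈ U, l ≠ i ∧ l ≠ j := by
    intro l hl
    rw [hU, mem_erase, mem_erase] at hl
    exact ⟨hl.2.1, hl.1⟩
  have hUc : n ≤ U.card + 4 := by
    rw [hU, card_erase_of_mem (by rw [mem_erase]; exact ⟨hq.symm, mem_univ _⟩),
      card_erase_of_mem (mem_univ _), card_univ, Fintype.card_fin]
    omega
  have b1 := bad_le (μ := μ) hUl hUc hBm (fun l hl P y =>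
      Ev2_update (hUl l hl).1.symm (hUl l hl).2.symm P y) hα
    hα1 hδ0 hδ hs0 hs hn (fun P hP => hP.2)
  have b2 := bad2_le (μ := μ) hg i j (meas_WA (μ := μ) α δ) hρ hsub
  set B1 := {P | P ∈ B ∧ 7 * s + 8 < |(lev P (i, j) : ℝ) - n * α|} with hB1
  set B2 := {P | P ∈ B ∧ 7 * (n * ρ) < (bc g P (i, j) : ℝ)} with hB2
  set G := Gd g (WA μ α δ) (n * α) (7 * s + 8) (7 * (n * ρ)) (i, j) with hG
  have hcov : B ⊆ G ∪ (B1 ∪ B2) := by
    intro P hP
    by_cases h1 : |(lev P (i, j) : ℝ) - n * α| ≤ 7 * s + 8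
    · by_cases h2 : (bc g P (i, j) : ℝ) ≤ 7 * (n * ρ)
      · exact Or.inl ⟨hP, h1, h2⟩
      · exact Or.inr (Or.inr ⟨hP, not_le.mp h2⟩)
    · exact Or.inr (Or.inl ⟨hP, not_le.mp h1⟩)
  have hx : π B = ee μ (WA μ α δ) := pi_Ev2 (meas_WA α δ) hq
  have hle : π B ≤ π G + (π B1 + π B2) :=
    (measure_mono hcov).trans ((measure_union_le _ _).trans
      (add_le_add le_rfl (measure_union_le _ _)))
  rw [← hx]
  have t1 : (π B).toReal ≤ (π G).toReal + ((π B1).toReal + (π B2).toReal) := by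
    have := ENNReal.toReal_mono (by finiteness) hle
    rwa [ENNReal.toReal_add (by finiteness) (by finiteness),
      ENNReal.toReal_add (by finiteness) (by finiteness)] at this
  have t2 : 18 * (π B1).toReal ≤ (π B).toReal := by
    have := ENNReal.toReal_mono (by finiteness) b1
    simpa using this
  have t3 : 18 * (π B2).toReal ≤ (π B).toReal := by
    have := ENNReal.toReal_mono (by finiteness) b2
    simpa using this
  linarith

open Classical in
/-- the expected number of good pairs -/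
theorem good_upper [IsProbabilityMeasure μ] (hμ : LN μ) (hc : ∀ᵐ l ∂μ, CrossesOnce g l)
    {n : ℕ} (A : Set ((ℝ × ℝ) × (ℝ × ℝ))) {c L M S : ℝ} (hc0 : 0 ≤ c) (hL : 0 ≤ L) (hM : 0 ≤ M)
    (hS : 0 ≤ S) (hS3 : 80 * (2 * L + 1) ^ 2 * (M + 2) ≤ S ^ 3) :
    ∫⁻ P, ((univ.filter (fun q : Fin n × Fin n => P ∈ Gd g A c L M q)).card : ℝ≥0∞)
      ∂Measure.pi (fun _ : Fin n => μ) ≤ ENNReal.ofReal (35 * S * (98 * n + (M + 2))) := by
  calc _ ≤ ∫⁻ P : Fin n → ℝ × ℝ, ENNReal.ofReal (35 * S * (98 * n + (M + 2)))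
        ∂Measure.pi (fun _ : Fin n => μ) := by
        apply lintegral_mono_ae
        have hae : ∀ᵐ P ∂Measure.pi (fun _ : Fin n => μ), ∀ i : Fin n, CrossesOnce g (P i) := by
          rw [ae_all_iff]
          intro i
          exact (measurePreserving_eval (fun _ : Fin n => μ) i).quasiMeasurePreserving.ae hc
        filter_upwards [ae_GP hμ n, hae] with P hP hcP
        set W := Icc ⌈c - L⌉₊ ⌊c + L⌋₊ with hW
        set w := ⌊2 * L + 1⌋₊ with hw
        set J := ⌊M⌋₊ with hJ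
        have hw1 : 1 ≤ w := by
          rw [hw, Nat.one_le_floor_iff]
          linarith
        have hWw : W.card ≤ w := Nat.le_floor (card_W hL hc0)
        obtain ⟨s, hs1, hs2⟩ := win_disc hP hcP (J := J) hWw hw1
        have h2 : univ.filter (fun q : Fin n × Fin n => P ∈ Gd g A c L M q) ⊆
            (T P).filter (fun q => lev P q ∈ W ∧
              (univ.filter (fun l => P l ∈ bet g (P q.1) (P q.2))).card ≤ J) := by
          intro q hq
          rw [mem_filter] at hq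
          obtain ⟨_, b1, b2, b3⟩ := hq
          rw [mem_filter, mem_T]
          exact ⟨b1.1, (mem_W (by linarith)).mpr b2, Nat.le_floor b3⟩
        have h3 := (card_le_card h2).trans hs2
        have hJM : (J : ℝ) ≤ M := Nat.floor_le hM
        have hwL : (w : ℝ) ≤ 2 * L + 1 := Nat.floor_le (by linarith)
        have hsS : (s : ℝ) ≤ S := by
          have h4 : (s : ℝ) ^ 3 ≤ S ^ 3 := by
            refine le_trans ?_ hS3
            have h5 : (s : ℝ) ^ 3 ≤ 80 * (w : ℝ) ^ 2 * (J + 2) := by exact_mod_cast hs1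
            refine h5.trans ?_
            have h6 : (w : ℝ) ^ 2 ≤ (2 * L + 1) ^ 2 :=
              pow_le_pow_left₀ (Nat.cast_nonneg _) hwL 2
            apply mul_le_mul _ (by linarith) (by positivity) (by positivity)
            linarith
          exact le_of_pow_le_pow_left₀ (by norm_num) hS h4
        have h4 : ((univ.filter (fun q : Fin n × Fin n => P ∈ Gd g A c L M q)).card : ℝ) ≤
            35 * S * (98 * n + (M + 2)) := by
          have h5 : ((univ.filter (fun q : Fin n × Fin n => P ∈ Gd g A c L M q)).card : ℝ) ≤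
            35 * (s : ℝ) * (98 * n + (J + 2)) := by exact_mod_cast h3
          refine h5.trans ?_
          apply mul_le_mul _ (by linarith) (by positivity) (by positivity)
          linarith
        rw [← ENNReal.ofReal_natCast]
        exact ENNReal.ofReal_le_ofReal h4
    _ = _ := by rw [lintegral_const, measure_univ, mul_one]

theorem good_bound [IsProbabilityMeasure μ] (hμ : LN μ) (hg : Measurable g)
    (hc : ∀ᵐ l ∂μ, CrossesOnce g l) {n : ℕ} {α δ s ρ S : ℝ} (hα : 0 < α) (hα1 : α ≤ 1)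
    (hδ0 : 0 ≤ δ) (hδ : δ ≤ α) (hs0 : 0 ≤ s) (hs : s ^ 2 = n * α) (hn : n * δ ≤ s)
    (hρ : 1 / 2 ≤ n * ρ) (hsub : WA μ α δ ⊆ NA g μ ρ) (hS : 0 ≤ S)
    (hS3 : 80 * (14 * s + 17) ^ 2 * (7 * (n * ρ) + 2) ≤ S ^ 3) :
    ((n : ℝ) * n - n) * (8 / 9 * (ee μ (WA μ α δ)).toReal) ≤
      35 * S * (98 * n + (7 * (n * ρ) + 2)) := by
  classical
  set π := Measure.pi (fun _ : Fin n => μ) with hπ
  have hup := good_upper hμ hc (n := n) (WA μ α δ) (c := n * α) (L := 7 * s + 8)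
    (M := 7 * (n * ρ)) (by positivity) (by positivity) (by linarith) hS (by
      have e : 2 * (7 * s + 8) + 1 = 14 * s + 17 := by ring
      rw [e]
      exact hS3)
  rw [lintegral_card π (fun q : Fin n × Fin n => Gd g (WA μ α δ) (n * α) (7 * s + 8)
    (7 * (n * ρ)) q) (fun q => meas_Gd hg (meas_WA α δ) _ _ _ q)] at hup
  have hlow : ((univ : Finset (Fin n)).offDiag.card : ℝ≥0∞) *
      ENNReal.ofReal (8 / 9 * (ee μ (WA μ α δ)).toReal) ≤
      ∑ q, π (Gd g (WA μ α δ) (n * α) (7 * s + 8) (7 * (n * ρ)) q) := by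
    calc _ = ∑ q ∈ (univ : Finset (Fin n)).offDiag,
          ENNReal.ofReal (8 / 9 * (ee μ (WA μ α δ)).toReal) := by
          rw [sum_const, nsmul_eq_mul]
      _ ≤ ∑ q ∈ (univ : Finset (Fin n)).offDiag,
          π (Gd g (WA μ α δ) (n * α) (7 * s + 8) (7 * (n * ρ)) q) := by
          apply sum_le_sum
          intro q hq
          rw [mem_offDiag] at hq
          apply ENNReal.ofReal_le_of_le_toReal
          exact good2 hg hq.2.2 hα hα1 hδ0 hδ hs0 hs hn hρ hsub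
      _ ≤ _ := sum_le_sum_of_subset (subset_univ _)
  have h1 := ENNReal.toReal_mono ENNReal.ofReal_ne_top (hlow.trans hup)
  have hnn : 0 ≤ n * ρ := by linarith
  rw [ENNReal.toReal_mul, ENNReal.toReal_natCast, ENNReal.toReal_ofReal (by positivity),
    ENNReal.toReal_ofReal (by positivity), offDiag_card, card_univ, Fintype.card_fin,
    Nat.cast_sub (Nat.le_mul_self n)] at h1
  push_cast at h1
  exact h1

theorem ee_third0 [IsProbabilityMeasure μ] (hμ : LN μ) (hg : Measurable g)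
    (hc : ∀ᵐ l ∂μ, CrossesOnce g l) {α δ ρ : ℝ} (hδ0 : 0 < δ) (hδ : δ ≤ α) (hα1 : α ≤ 1)
    (hρ : δ ≤ ρ) (hρ1 : ρ ≤ 1) (hsub : WA μ α δ ⊆ NA g μ ρ) :
    (ee μ (WA μ α δ)).toReal ^ 3 ≤ 700000 ^ 3 * (δ ^ 2 * ρ) := by
  have hα : 0 < α := lt_of_lt_of_le hδ0 hδ
  have hρ0 : 0 < ρ := lt_of_lt_of_le hδ0 hρ
  set x := (ee μ (WA μ α δ)).toReal with hx
  have hx0 : 0 ≤ x := ENNReal.toReal_nonneg
  have hx1 : x ≤ 1 := ENNReal.toReal_le_of_le_ofReal zero_le_one (by simpa using ee_le_one _)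
  set y := α / δ ^ 2 with hy
  have hδ2 : 0 < δ ^ 2 := by positivity
  have hy0 : 0 < y := by positivity
  have hyδ : y * δ ^ 2 = α := by rw [hy]; field_simp
  have hy1 : 1 ≤ y := by
    rw [hy, le_div_iff₀ hδ2]
    nlinarith
  set n := ⌊y⌋₊ with hn
  have hn1 : 1 ≤ n := (Nat.one_le_floor_iff _).mpr hy1
  have hny : (n : ℝ) ≤ y := Nat.floor_le hy0.le
  have hny2 : y < n + 1 := Nat.lt_floor_add_one y
  have hn0 : (1 : ℝ) ≤ n := by exact_mod_cast hn1
  have hy2 : y ≤ 2 * n := by linarith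
  by_cases h8 : 8 ≤ n
  · have h8' : (8 : ℝ) ≤ n := by exact_mod_cast h8
    set s := Real.sqrt (n * α) with hs
    have hs0 : 0 ≤ s := Real.sqrt_nonneg _
    have hs2 : s ^ 2 = n * α := Real.sq_sqrt (by positivity)
    have hns : n * δ ≤ s := by
      rw [hs]
      apply Real.le_sqrt_of_sq_le
      have : (n : ℝ) * δ ^ 2 ≤ α := by rw [← hyδ]; gcongr
      nlinarith
    have hnδ : 1 / 2 ≤ n * δ := by
      have h1 : δ * (y * δ) ≤ δ * (2 * n * δ) := by
        have := mul_le_mul_of_nonneg_right hy2 hδ2.le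
        nlinarith
      have h2 : δ * 1 ≤ δ * (y * δ) := by
        have : δ * (y * δ) = α := by rw [← hyδ]; ring
        rw [this]
        linarith
      have h3 := le_of_mul_le_mul_left (h2.trans h1) hδ0
      linarith
    have hnρ : 1 / 2 ≤ n * ρ := by
      have : (n : ℝ) * δ ≤ n * ρ := by gcongr
      linarith
    have hs12 : 1 / 2 ≤ s ^ 2 := by
      rw [hs2]
      have h1 : y * α ≤ 2 * n * α := by gcongr
      have h2 : 1 ≤ y * α := by
        rw [hy, div_mul_eq_mul_div, le_div_iff₀ hδ2]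
        nlinarith
      linarith
    have hs7 : 7 / 10 ≤ s := by
      by_contra hcon
      push Not at hcon
      nlinarith
    set X : ℝ := 1338480 * (n * α) * (n * ρ) with hX
    have hX0 : 0 < X := by positivity
    obtain ⟨S, hS0, hS3⟩ : ∃ S : ℝ, 0 ≤ S ∧ S ^ 3 = X := by
      refine ⟨X ^ (1 / 3 : ℝ), by positivity, ?_⟩
      rw [← Real.rpow_natCast, ← Real.rpow_mul hX0.le]
      norm_num
    have e1 : (14 * s + 17) ^ 2 ≤ 1521 * s ^ 2 := by
      have : 14 * s + 17 ≤ 39 * s := by linarith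
      calc (14 * s + 17) ^ 2 ≤ (39 * s) ^ 2 := pow_le_pow_left₀ (by positivity) this 2
        _ = _ := by ring
    have e2 : 7 * (n * ρ) + 2 ≤ 11 * (n * ρ) := by linarith
    have hcp := good_bound hμ hg hc (n := n) hα hα1 hδ0.le hδ hs0 hs2 hns hnρ hsub hS0 (by
      rw [hS3, hX]
      calc 80 * (14 * s + 17) ^ 2 * (7 * (n * ρ) + 2) ≤ 80 * (1521 * s ^ 2) * (11 * (n * ρ)) := by
            gcongr
        _ = _ := by rw [hs2]; ring)
    rw [← hx] at hcp
    have e3 : 35 * S * (98 * n + (7 * (n * ρ) + 2)) ≤ n * (3815 * S) := by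
      have h1 : (n : ℝ) * ρ ≤ n * 1 := by gcongr
      have h2 : 98 * (n : ℝ) + (7 * (n * ρ) + 2) ≤ 109 * n := by linarith
      calc 35 * S * (98 * n + (7 * (n * ρ) + 2)) ≤ 35 * S * (109 * n) := by gcongr
        _ = _ := by ring
    have e4 : (n : ℝ) * ((n - 1) * (8 / 9 * x)) ≤ n * (3815 * S) := by
      refine le_trans (le_of_eq ?_) (hcp.trans e3)
      ring
    have e5 := le_of_mul_le_mul_left e4 (by linarith)
    have e6 : (n : ℝ) * x ≤ 4905 * S := by
      have h1 : 7 / 8 * (n : ℝ) ≤ n - 1 := by linarith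
      have h2 : 7 / 8 * (n : ℝ) * (8 / 9 * x) ≤ (n - 1) * (8 / 9 * x) := by gcongr
      linarith
    have e7 : ((n : ℝ) * x) ^ 3 ≤ (4905 * S) ^ 3 := pow_le_pow_left₀ (by positivity) e6 3
    rw [mul_pow, mul_pow, hS3, hX] at e7
    have hn2 : (0 : ℝ) < n ^ 2 := by positivity
    have e8 : (n : ℝ) * x ^ 3 ≤ 4905 ^ 3 * 1338480 * (α * ρ) := by
      have : (n : ℝ) ^ 2 * (n * x ^ 3) ≤ n ^ 2 * (4905 ^ 3 * 1338480 * (α * ρ)) := by
        calc (n : ℝ) ^ 2 * (n * x ^ 3) = (n : ℝ) ^ 3 * x ^ 3 := by ring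
          _ ≤ _ := e7
          _ = _ := by ring
      exact le_of_mul_le_mul_left this hn2
    have hx3 : 0 ≤ x ^ 3 := by positivity
    have e9 : α * x ^ 3 ≤ α * (4905 ^ 3 * 2676960 * (δ ^ 2 * ρ)) := by
      calc α * x ^ 3 = (y * x ^ 3) * δ ^ 2 := by rw [← hyδ]; ring
        _ ≤ (2 * n * x ^ 3) * δ ^ 2 := by gcongr
        _ = 2 * (n * x ^ 3) * δ ^ 2 := by ring
        _ ≤ 2 * (4905 ^ 3 * 1338480 * (α * ρ)) * δ ^ 2 := by gcongr
        _ = _ := by ring
    have e10 := le_of_mul_le_mul_left e9 hα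
    have h11 : 0 ≤ δ ^ 2 * ρ := by positivity
    have h12 : (4905 : ℝ) ^ 3 * 2676960 ≤ 700000 ^ 3 := by norm_num
    exact e10.trans (mul_le_mul_of_nonneg_right h12 h11)
  · have hn7 : (n : ℝ) ≤ 7 := by
      have : n ≤ 7 := by omega
      exact_mod_cast this
    have hy8 : y < 8 := by linarith
    have h1 : α < 8 * δ ^ 2 := by rw [← hyδ]; nlinarith
    have h2 : 1 / 8 < α := by
      have : δ ^ 2 ≤ α ^ 2 := pow_le_pow_left₀ hδ0.le hδ 2
      nlinarith
    have h4 : 1 / 8 < δ := by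
      by_contra hcon
      push Not at hcon
      nlinarith
    have h3 : 1 / 512 ≤ δ ^ 2 * ρ := by
      have h5 : 1 / 64 ≤ δ ^ 2 := by nlinarith
      nlinarith
    have h6 : x ^ 3 ≤ 1 := pow_le_one₀ hx0 hx1
    linarith

/-- the crossing of two independent lines seldom has a mass close to `α` below -/
theorem ee_third [IsProbabilityMeasure μ] (hμ : LN μ) (hg : Measurable g)
    (hc : ∀ᵐ l ∂μ, CrossesOnce g l) {κ ε : ℝ}
    (hκ : ∀ x, |(μ {l | l.1 * x + l.2 < g x}).toReal - κ| ≤ ε) {α δ : ℝ} (hδ0 : 0 < δ)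
    (hδ : δ ≤ α) (hα1 : α ≤ 1) :
    (ee μ (WA μ α δ)).toReal ^ 3 ≤ 700000 ^ 3 * (δ ^ 2 * (δ + (|α - κ| + ε))) := by
  have hε : 0 ≤ ε := (abs_nonneg _).trans (hκ 0)
  have hβ : 0 ≤ |α - κ| + ε := by positivity
  by_cases h1 : δ + (|α - κ| + ε) ≤ 1
  · exact ee_third0 hμ hg hc hδ0 hδ hα1 (by linarith) h1 (WA_sub hg hκ)
  · push Not at h1
    refine (ee_le hμ hδ0 hδ hα1).trans ?_
    have h2 : α * δ ^ 2 ≤ δ ^ 2 * (δ + (|α - κ| + ε)) := by
      have : 0 ≤ δ ^ 2 := sq_nonneg _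
      nlinarith
    have h3 : 0 ≤ α * δ ^ 2 := mul_nonneg (by linarith) (sq_nonneg _)
    nlinarith

end Pool.Agent.U272.IC
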