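import Pool.Agent.U272.IC.Disc

/-!
# Dey's bound for a window of levels
-/

set_option autoImplicit false

namespace Pool.Agent.U272.IC

open Finset Pool.Agent.TH124.KE Pool.Agent.U272.DP
open Pool.Agent.H189R2.Iid (X2 Y2 M4 CrossP lev low cross_lt T_card)

/-- general position, and no two connecting lines are parallel -/
structure SGP (T : Finset (ℝ × ℝ)) : Prop where
  gp : GP T
  par : ∀ e f : Seg, e.1 ∈ T → e.2 ∈ T → e.1.1 < e.2.1 → f.1 ∈ T → f.2 ∈ T → f.1.1 < f.2.1 →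
    ss e = ss f → e = f

lemma SGP.mono {T W : Finset (ℝ × ℝ)} (h : SGP W) (hT : T ⊆ W) : SGP T :=
  ⟨h.gp.mono hT, fun e f a1 a2 a3 b1 b2 b3 =>
    h.par e f (hT a1) (hT a2) a3 (hT b1) (hT b2) b3⟩

lemma sgp_image {n : ℕ} {P : Fin n → ℝ × ℝ} (hP : Pool.Agent.H189R2.Iid.GP P) :
    SGP (univ.image P) := by
  have hpar : ∀ e f : Seg, e.1 ∈ univ.image P → e.2 ∈ univ.image P → e.1.1 < e.2.1 →
      f.1 ∈ univ.image P → f.2 ∈ univ.image P → f.1.1 < f.2.1 → ss e = ss f → e = f := by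
    rintro ⟨e1, e2⟩ ⟨f1, f2⟩ a1 a2 a3 b1 b2 b3 h
    rw [mem_image] at a1 a2 b1 b2
    obtain ⟨i, -, rfl⟩ := a1
    obtain ⟨j, -, rfl⟩ := a2
    obtain ⟨r, -, rfl⟩ := b1
    obtain ⟨s, -, rfl⟩ := b2
    have h' : sl (P i) (P j) = sl (P r) (P s) := h
    rw [sl_X2, sl_X2, neg_inj] at h'
    obtain ⟨h1, h2⟩ := hP.2 j i s r a3 b3 h'
    rw [h1, h2]
  refine ⟨⟨?_, ?_⟩, hpar⟩
  · intro p hp q hq h
    rw [mem_image] at hp hq
    obtain ⟨i, -, rfl⟩ := hp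
    obtain ⟨j, -, rfl⟩ := hq
    rw [hP.1 i j h]
  · intro p hp q hq r hr hpq hpr hqr h
    rw [mem_image] at hp hq hr
    obtain ⟨i, -, rfl⟩ := hp
    obtain ⟨j, -, rfl⟩ := hq
    obtain ⟨l, -, rfl⟩ := hr
    have hij : i ≠ j := fun h => hpq (by rw [h])
    have hil : i ≠ l := fun h => hpr (by rw [h])
    have hjl : j ≠ l := fun h => hqr (by rw [h])
    have h1 : (P i).1 ≠ (P j).1 := fun h => hij (hP.1 i j h)
    have h2 : (P i).1 ≠ (P l).1 := fun h => hil (hP.1 i l h)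
    have c1 : ∀ u v : Fin n, X2 (P u) (P v) = - sl (P u) (P v) := by
      intro u v
      rw [sl_comm, sl_X2, neg_neg]
    have c2 : ∀ u v : Fin n, X2 (P u) (P v) = - sl (P v) (P u) := by
      intro u v
      rw [sl_X2, neg_neg]
    rcases lt_or_gt_of_ne h1 with h1 | h1 <;> rcases lt_or_gt_of_ne h2 with h2 | h2
    · exact hjl (hP.2 j i l i h1 h2 (by rw [c2, c2, h])).1
    · exact hij.symm (hP.2 j i i l h1 h2 (by rw [c2, c1, h])).1
    · exact hil (hP.2 i j l i h1 h2 (by rw [c1, c2, h])).1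
    · exact hjl (hP.2 i j i l h1 h2 (by rw [c1, c1, h])).2

open scoped Classical in
/-- the pairs whose level is in the window `W` -/
noncomputable def wed (T : Finset (ℝ × ℝ)) (W : Finset ℕ) : Finset Seg :=
  (T ×ˢ T).filter (fun e => e.1.1 < e.2.1 ∧ bel T (ss e) e.1 ∈ W)

lemma mem_wed {T : Finset (ℝ × ℝ)} {W : Finset ℕ} {e : Seg} :
    e ∈ wed T W ↔ (e.1 ∈ T ∧ e.2 ∈ T) ∧ e.1.1 < e.2.1 ∧ bel T (ss e) e.1 ∈ W := by
  classical
  unfold wed
  rw [mem_filter, mem_product]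

lemma Y2_eq (e : Seg) (h : e.1.1 < e.2.1) : Y2 e.2 e.1 = hh (ss e) e.1 := by
  have h1 : hh (ss e) e.2 = e.2.1 * X2 e.2 e.1 + e.2.2 := hh_X2 _ _ _
  have h2 : hh (ss e) e.2 = hh (ss e) e.1 := hh_sl h.ne
  rw [← h2, h1]
  rfl

lemma ev_X2 (e : Seg) (h : e.1.1 < e.2.1) (x : ℝ) : ev e x = Y2 e.2 e.1 - x * X2 e.2 e.1 := by
  rw [Y2_eq e h]
  have : ss e = - X2 e.2 e.1 := sl_X2 _ _
  unfold ev hh
  rw [this]
  ring

theorem crs_wed {T : Finset (ℝ × ℝ)} (hT : SGP T) (W : Finset ℕ) :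
    2 * #(crs (wed T W)) ≤ #W ^ 2 * #T ^ 2 := by
  classical
  set m := #T with hm
  set φ := T.equivFin with hφ
  set P : Fin m → ℝ × ℝ := fun i => (φ.symm i).1 with hP
  have hPT : ∀ i, P i ∈ T := fun i => (φ.symm i).2
  have hinj : Function.Injective P := fun i j h => φ.symm.injective (Subtype.ext h)
  have hsurj : ∀ p ∈ T, ∃ i, P i = p := by
    intro p hp
    refine ⟨φ ⟨p, hp⟩, ?_⟩
    show (φ.symm (φ ⟨p, hp⟩)).1 = p
    rw [Equiv.symm_apply_apply]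
  have hG : Pool.Agent.H189R2.Iid.GP P := by
    refine ⟨fun i j h => hinj (hT.gp.inj _ (hPT i) _ (hPT j) h), ?_⟩
    intro i j r s h1 h2 h3
    have h4 : ss ((P j, P i) : Seg) = ss ((P s, P r) : Seg) := by
      show sl (P j) (P i) = sl (P s) (P r)
      rw [sl_X2, sl_X2, h3]
    have h5 := hT.par _ _ (hPT j) (hPT i) h1 (hPT s) (hPT r) h2 h4
    rw [Prod.mk.injEq] at h5
    exact ⟨hinj h5.2, hinj h5.1⟩
  -- the enumeration of the pairs
  rcases T.eq_empty_or_nonempty with hT0 | ⟨p0, hp0⟩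
  · have : wed T W = ∅ := by
      rw [eq_empty_iff_forall_notMem]
      intro e he
      rw [mem_wed, hT0] at he
      exact absurd he.1.1 (notMem_empty _)
    rw [this]
    have : crs (∅ : Finset Seg) = ∅ := by
      unfold crs
      rw [empty_product, filter_empty]
    rw [this, card_empty]
    exact Nat.zero_le _
  have : Nonempty (Fin m) := ⟨φ ⟨p0, hp0⟩⟩
  choose! idx hidx using hsurj
  set B : ℕ × ℕ → Finset ((Fin m × Fin m) × (Fin m × Fin m)) := fun k =>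
    ((Pool.Agent.H189R2.Iid.T P ×ˢ Pool.Agent.H189R2.Iid.T P).filter (fun q =>
      X2 (P q.1.1) (P q.1.2) < X2 (P q.2.1) (P q.2.2) ∧
      lev P q.1 = k.1 ∧ lev P q.2 = k.2 ∧
      CrossP (P q.1.1) (P q.1.2) (P q.2.1) (P q.2.2))) with hB
  have hBc : ∀ k, 2 * (B k).card ≤ m ^ 2 := by
    intro k
    have h1 := cross_lt hG k.1 k.2
    have h2 := T_card P
    have h3 : ((Pool.Agent.H189R2.Iid.T P).filter (fun q => lev P q ≤ k.2)).card ≤
      (Pool.Agent.H189R2.Iid.T P).card := card_le_card (filter_subset _ _)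
    have h4 : (B k).card ≤ ((Pool.Agent.H189R2.Iid.T P).filter (fun q => lev P q ≤ k.2)).card := h1
    omega
  have hlev : ∀ e : Seg, e.1 ∈ T → e.2 ∈ T → e.1.1 < e.2.1 →
      lev P (idx e.2, idx e.1) = bel T (ss e) e.1 := by
    intro e h1 h2 h3
    unfold lev bel
    rw [hidx _ h1, hidx _ h2]
    apply card_bij (fun l _ => P l)
    · intro l hl
      rw [mem_filter] at hl ⊢
      refine ⟨hPT l, ?_⟩
      have h4 : (P l).1 * X2 e.2 e.1 + (P l).2 < Y2 e.2 e.1 := hl.2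
      rw [Y2_eq e h3] at h4
      have h5 : hh (ss e) (P l) = (P l).1 * X2 e.2 e.1 + (P l).2 := hh_X2 _ _ _
      rw [h5]
      exact h4
    · intro l _ l' _ h
      exact hinj h
    · intro p hp
      rw [mem_filter] at hp
      refine ⟨idx p, ?_, hidx p hp.1⟩
      rw [mem_filter]
      refine ⟨mem_univ _, ?_⟩
      rw [hidx p hp.1]
      show p.1 * X2 e.2 e.1 + p.2 < Y2 e.2 e.1
      rw [Y2_eq e h3]
      have h5 : hh (ss e) p = p.1 * X2 e.2 e.1 + p.2 := hh_X2 _ _ _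
      rw [← h5]
      exact hp.2
  have hmap : #(crs (wed T W)) ≤ ((W ×ˢ W).biUnion B).card := by
    apply card_le_card_of_injOn
      (fun x => ((idx x.1.2, idx x.1.1), (idx x.2.2, idx x.2.1)))
    · rintro ⟨e, f⟩ hx
      rw [mem_coe] at hx
      unfold crs at hx
      rw [mem_filter, mem_product, mem_wed, mem_wed] at hx
      obtain ⟨⟨⟨⟨a1, a2⟩, a3, a4⟩, ⟨⟨b1, b2⟩, b3, b4⟩⟩, h1, h2⟩ := hx
      simp only at a1 a2 a3 a4 b1 b2 b3 b4 h1 h2
      rw [mem_coe, mem_biUnion]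
      refine ⟨(bel T (ss e) e.1, bel T (ss f) f.1), mem_product.2 ⟨a4, b4⟩, ?_⟩
      rw [hB]
      simp only
      rw [mem_filter, mem_product, Pool.Agent.H189R2.Iid.mem_T, Pool.Agent.H189R2.Iid.mem_T]
      simp only
      rw [hlev e a1 a2 a3, hlev f b1 b2 b3, hidx _ a1, hidx _ a2, hidx _ b1, hidx _ b2]
      refine ⟨⟨a3, b3⟩, ?_, rfl, rfl, ?_⟩
      · have c1 : ss e = - X2 e.2 e.1 := sl_X2 _ _
        have c2 : ss f = - X2 f.2 f.1 := sl_X2 _ _
        rw [c1, c2] at h1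
        linarith
      · obtain ⟨h3, x, h4, h5, h6, h7, h8⟩ := h2
        have c1 : ss e = - X2 e.2 e.1 := sl_X2 _ _
        have c2 : ss f = - X2 f.2 f.1 := sl_X2 _ _
        have h9 : X2 f.2 f.1 - X2 e.2 e.1 ≠ 0 := by
          intro h
          apply h3
          rw [c1, c2]
          linarith
        rw [ev_X2 e a3, ev_X2 f b3] at h8
        have h10 : M4 e.2 e.1 f.2 f.1 = x := by
          unfold M4
          rw [div_eq_iff h9]
          linarith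
        unfold CrossP
        rw [h10]
        exact ⟨h4, h5, h6, h7⟩
    · rintro ⟨e, f⟩ hx ⟨e', f'⟩ hx' h
      rw [mem_coe] at hx hx'
      unfold crs at hx hx'
      rw [mem_filter, mem_product, mem_wed, mem_wed] at hx hx'
      obtain ⟨⟨⟨⟨a1, a2⟩, -, -⟩, ⟨⟨b1, b2⟩, -, -⟩⟩, -, -⟩ := hx
      obtain ⟨⟨⟨⟨a1', a2'⟩, -, -⟩, ⟨⟨b1', b2'⟩, -, -⟩⟩, -, -⟩ := hx'
      simp only [Prod.mk.injEq] at h a1 a2 b1 b2 a1' a2' b1' b2'
      obtain ⟨⟨h1, h2⟩, h3, h4⟩ := h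
      have g1 : e.2 = e'.2 := by rw [← hidx _ a2, ← hidx _ a2', h1]
      have g2 : e.1 = e'.1 := by rw [← hidx _ a1, ← hidx _ a1', h2]
      have g3 : f.2 = f'.2 := by rw [← hidx _ b2, ← hidx _ b2', h3]
      have g4 : f.1 = f'.1 := by rw [← hidx _ b1, ← hidx _ b1', h4]
      exact Prod.ext (Prod.ext g2 g1) (Prod.ext g4 g3)
  have h1 : ((W ×ˢ W).biUnion B).card ≤ ∑ k ∈ W ×ˢ W, (B k).card := card_biUnion_le
  have h2 : 2 * ∑ k ∈ W ×ˢ W, (B k).card ≤ #W ^ 2 * m ^ 2 := by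
    rw [mul_sum]
    calc ∑ k ∈ W ×ˢ W, 2 * (B k).card ≤ ∑ k ∈ W ×ˢ W, m ^ 2 := sum_le_sum fun k _ => hBc k
      _ = _ := by rw [sum_const, card_product, smul_eq_mul, sq (#W)]
  omega

/-- **Dey's bound for a window of levels.** -/
theorem dey_win {T : Finset (ℝ × ℝ)} (hT : SGP T) (W : Finset ℕ) {s : ℕ} (hs : 0 < s) :
    2 * s ^ 2 * #(wed T W) ≤ 6 * s ^ 3 * #T + #W ^ 2 * #T ^ 2 := by
  have h1 := crossing_lemma hT.gp (F := wed T W) (fun e he => by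
    rw [mem_wed] at he
    exact ⟨he.1.1, he.1.2, he.2.1⟩) s hs
  have h2 := crs_wed hT W
  nlinarith

end Pool.Agent.U272.IC
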