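import Pool.Agent.U272.IC.WinDey
import Pool.Agent.U272.DP.Main

/-!
# Pairs of a window of levels which are close to a curve
-/

set_option autoImplicit false

namespace Pool.Agent.U272.IC

open Finset Pool.Agent.TH124.KE Pool.Agent.U272.DP
open Pool.Agent.H189R2.Iid (X2 Y2 lev low mem_T)

variable {g : ℝ → ℝ} {P : Finset (ℝ × ℝ)}

open scoped Classical in
/-- the pairs of a slab, for all levels at once -/
theorem all_slab (hP : GP P) {J : ℕ} {I : Set ℝ} (hI : I.OrdConnected)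
    (hev : ∀ σ₀ ∈ I, ∀ σ₁ ∈ I, σ₀ ≤ σ₁ →
      #((EV g P (3 * J + 2)).filter (fun e => σ₀ < ss e ∧ ss e ≤ σ₁)) < (J + 2) ^ 2)
    (hX : ∀ X : Finset (ℝ × ℝ), X ⊆ P → (∀ p ∈ X, Xs g I p) → #X ≤ J + 1) :
    ∃ T ⊆ P, #T ≤ 10 * (J + 2) ∧ ∃ c, ∀ e : Seg, e.1 ∈ P → e.2 ∈ P → e.1.1 < e.2.1 → ss e ∈ I →
      NN g P (ss e) e.1 ≤ J → e.1 ∈ T ∧ e.2 ∈ T ∧ bel P (ss e) e.1 = bel T (ss e) e.1 + c := by
  by_cases hF : ∃ e : Seg, ss e ∈ I
  swap
  · push Not at hF
    exact ⟨∅, empty_subset _, by simp, 0, fun e _ _ _ h => absurd h (hF e)⟩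
  obtain ⟨e₀, he₀⟩ := hF
  set T := P.filter (Dn g P J I) ∪ P.filter (Xs g I) with hT
  have hTP : T ⊆ P := union_subset (filter_subset _ _) (filter_subset _ _)
  have hTc : #T ≤ 10 * (J + 2) := by
    have h1 : #T ≤ #(P.filter (Dn g P J I)) + #(P.filter (Xs g I)) := card_union_le _ _
    have h2 := slab hP hI hev hX
    have h3 := hX (P.filter (Xs g I)) (filter_subset _ _) (fun q hq => (mem_filter.1 hq).2)
    omega
  set σ₀ := ss e₀ with hσ₀
  set c := #((P \ T).filter (fun w => hh σ₀ w < g σ₀)) with hc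
  have hnT : ∀ w ∈ P \ T, w ∈ P ∧ ¬ Dn g P J I w ∧ ¬ Xs g I w := by
    intro w hw
    rw [mem_sdiff, hT, mem_union, mem_filter, mem_filter] at hw
    push Not at hw
    exact ⟨hw.1, hw.2.1 hw.1, hw.2.2 hw.1⟩
  refine ⟨T, hTP, hTc, c, ?_⟩
  intro e hp1 hp2 hlt hslI hN
  set σ := ss e with hσ
  have e2 : hh σ e.2 = hh σ e.1 := hh_sl hlt.ne
  have hmem : ∀ z ∈ P, hh σ z = hh σ e.1 → z ∈ T := by
    intro z hz hzV
    rw [hT, mem_union, mem_filter]
    exact Or.inl ⟨hz, σ, hslI, by rw [NN_eq hzV]; exact hN⟩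
  have hcmp : ∀ w ∈ P \ T, (hh σ w < hh σ e.1 ↔ hh σ₀ w < g σ₀) := by
    intro w hw
    obtain ⟨hwP, hwD, hwX⟩ := hnT w hw
    have hcc : cc g w σ = cc g w σ₀ := by
      by_contra h
      exact hwX ⟨σ, hslI, σ₀, he₀, h⟩
    have h2 : hh σ₀ w < g σ₀ ↔ hh σ w < g σ := ⟨cc_below hcc.symm, cc_below hcc⟩
    rw [h2]
    have hbig : J < NN g P σ w := by
      by_contra h
      exact hwD ⟨σ, hslI, not_lt.1 h⟩
    rcases lt_trichotomy (hh σ w) (g σ) with h | h | h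
    · refine ⟨fun _ => h, fun _ => ?_⟩
      by_contra h3
      push Not at h3
      have : NN g P σ w ≤ NN g P σ e.1 := by
        unfold NN
        apply card_le_card
        intro z hz
        rw [mem_filter] at hz ⊢
        refine ⟨hz.1, ?_⟩
        rcases hz.2 with h4 | h4
        · exfalso
          linarith [h4.1, h4.2]
        · exact Or.inr ⟨by linarith [h4.1], h4.2⟩
      omega
    · rw [NN_on h] at hbig
      omega
    · refine ⟨fun h3 => ?_, fun h3 => by linarith⟩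
      exfalso
      have : NN g P σ w ≤ NN g P σ e.1 := by
        unfold NN
        apply card_le_card
        intro z hz
        rw [mem_filter] at hz ⊢
        refine ⟨hz.1, ?_⟩
        rcases hz.2 with h4 | h4
        · exact Or.inl ⟨h4.1, by linarith [h4.2]⟩
        · exfalso
          linarith [h4.1, h4.2]
      omega
  refine ⟨hmem _ hp1 rfl, hmem _ hp2 e2, ?_⟩
  unfold bel
  rw [hc, ← filter_congr hcmp]
  rw [← card_union_of_disjoint]
  · congr 1
    ext z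
    simp only [mem_filter, mem_union, mem_sdiff]
    constructor
    · rintro ⟨h1, h2⟩
      by_cases h3 : z ∈ T
      · exact Or.inl ⟨h3, h2⟩
      · exact Or.inr ⟨⟨h1, h3⟩, h2⟩
    · rintro (⟨h1, h2⟩ | ⟨⟨h1, -⟩, h2⟩)
      · exact ⟨hTP h1, h2⟩
      · exact ⟨h1, h2⟩
  · rw [disjoint_left]
    intro z h1 h2
    exact (mem_sdiff.1 (mem_filter.1 h2).1).2 (mem_filter.1 h1).1

/-- **Reduction to few points, for a window of levels.** -/
theorem win_red (hP : GP P) (h1 : ∀ p ∈ P, Ri g p ∨ Fa g p) {W : Finset ℕ} {J E : ℕ}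
    {K : Finset Seg} (hK : K ⊆ wed P W) (hN : ∀ e ∈ K, NN g P (ss e) e.1 ≤ J)
    (hE : ∀ T ⊆ P, #T ≤ 10 * (J + 2) → ∀ W' : Finset ℕ, #W' ≤ #W → #(wed T W') ≤ E) :
    #K ≤ (98 * (J + 2) * #P / (J + 2) ^ 2 + 1) * E := by
  classical
  set m := 98 * (J + 2) * #P / (J + 2) ^ 2 with hm
  set F : ℕ → Finset Seg := fun i => K.filter (fun e => ss e ∈ sb g P J i) with hF
  have hFi : ∀ i, #(F i) ≤ E := by
    intro i
    obtain ⟨T, h2, h3, c, h4⟩ := all_slab hP (sb_conn h1 J i) (sb_events h1 J i)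
      (sb_cross h1 J i)
    refine le_trans (card_le_card ?_) (hE T h2 h3 (W.image (fun j => j - c)) card_image_le)
    intro e he
    rw [hF, mem_filter] at he
    obtain ⟨heK, heI⟩ := he
    have hw := mem_wed.1 (hK heK)
    obtain ⟨h5, h6, h7⟩ := h4 e hw.1.1 hw.1.2 hw.2.1 heI (hN e heK)
    rw [mem_wed]
    refine ⟨⟨h5, h6⟩, hw.2.1, ?_⟩
    rw [mem_image]
    exact ⟨_, hw.2.2, by omega⟩
  have hsub : K ⊆ (range (m + 1)).biUnion F := by
    intro e he
    rw [mem_biUnion]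
    refine ⟨rk g P J (ss e) / (J + 2) ^ 2, ?_, ?_⟩
    · rw [mem_range]
      exact Nat.lt_succ_of_le (Nat.div_le_div_right (rk_le hP h1 J _))
    · rw [hF, mem_filter]
      exact ⟨he, rfl⟩
  calc #K ≤ ∑ i ∈ range (m + 1), #(F i) := (card_le_card hsub).trans card_biUnion_le
    _ ≤ ∑ i ∈ range (m + 1), E := sum_le_sum fun i _ => hFi i
    _ = _ := by rw [sum_const, card_range, smul_eq_mul]

/-- the choice of the parameter in Dey's bound -/
lemma cube_root (x : ℕ) (hx : 1 ≤ x) : ∃ s : ℕ, 1 ≤ s ∧ x ≤ s ^ 3 ∧ s ^ 3 ≤ 8 * x := by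
  classical
  have hex : ∃ s : ℕ, x ≤ s ^ 3 := ⟨x, by nlinarith [Nat.one_le_pow 2 x hx, pow_succ x 2]⟩
  set s := Nat.find hex with hs
  have h1 : x ≤ s ^ 3 := Nat.find_spec hex
  have h2 : 1 ≤ s := by
    by_contra h
    have : s = 0 := by omega
    rw [this] at h1
    omega
  refine ⟨s, h2, h1, ?_⟩
  by_cases h3 : s = 1
  · rw [h3]
    omega
  · have h4 : ¬ x ≤ (s - 1) ^ 3 := Nat.find_min hex (by omega)
    push Not at h4
    obtain ⟨t, ht⟩ : ∃ t, s = t + 1 := ⟨s - 1, by omega⟩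
    rw [ht] at h4 ⊢
    rw [Nat.add_sub_cancel] at h4
    have h5 : 1 ≤ t := by omega
    have h6 : t + 1 ≤ 2 * t := by omega
    have h7 : (t + 1) ^ 3 ≤ (2 * t) ^ 3 := Nat.pow_le_pow_left h6 3
    calc (t + 1) ^ 3 ≤ (2 * t) ^ 3 := h7
      _ = 8 * t ^ 3 := by ring
      _ ≤ 8 * x := by omega

theorem win_nat (hP : SGP P) (h1 : ∀ p ∈ P, Ri g p ∨ Fa g p) {W : Finset ℕ} {J w : ℕ}
    (hw : #W ≤ w) (hw1 : 1 ≤ w) {K : Finset Seg} (hK : K ⊆ wed P W)
    (hN : ∀ e ∈ K, NN g P (ss e) e.1 ≤ J) :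
    ∃ s : ℕ, s ^ 3 ≤ 80 * w ^ 2 * (J + 2) ∧ #K ≤ 35 * s * (98 * #P + (J + 2)) := by
  obtain ⟨s, hs1, hs2, hs3⟩ := cube_root (w ^ 2 * (10 * (J + 2))) (by
    have : 1 ≤ w ^ 2 := Nat.one_le_pow _ _ hw1
    nlinarith)
  refine ⟨s, by linarith, ?_⟩
  have h2 := win_red hP.gp h1 (E := 35 * s * (J + 2)) hK hN (by
    intro T hTP hT W' hW'
    have h3 := dey_win (hP.mono hTP) W' (s := s) (by omega)
    have h4 : #W' ^ 2 ≤ w ^ 2 := Nat.pow_le_pow_left (hW'.trans hw) 2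
    have h5 : 6 * s ^ 3 * #T ≤ 6 * s ^ 3 * (10 * (J + 2)) := Nat.mul_le_mul_left _ hT
    have h6 : #W' ^ 2 * #T ^ 2 ≤ w ^ 2 * (10 * (J + 2)) ^ 2 :=
      Nat.mul_le_mul h4 (Nat.pow_le_pow_left hT 2)
    have h7 : w ^ 2 * (10 * (J + 2)) ^ 2 ≤ s ^ 3 * (10 * (J + 2)) := by
      calc w ^ 2 * (10 * (J + 2)) ^ 2 = (w ^ 2 * (10 * (J + 2))) * (10 * (J + 2)) := by ring
        _ ≤ _ := Nat.mul_le_mul_right _ hs2
    have h8 : 2 * s ^ 2 * #(wed T W') ≤ 2 * s ^ 2 * (35 * s * (J + 2)) := by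
      calc 2 * s ^ 2 * #(wed T W') ≤ 7 * s ^ 3 * (10 * (J + 2)) := by linarith
        _ = _ := by ring
    exact Nat.le_of_mul_le_mul_left h8 (by positivity))
  have h3 : 98 * (J + 2) * #P / (J + 2) ^ 2 * (J + 2) ≤ 98 * #P := by
    have h4 : 98 * (J + 2) * #P / (J + 2) ^ 2 = 98 * #P / (J + 2) := by
      rw [show 98 * (J + 2) * #P = (98 * #P) * (J + 2) by ring, sq,
        Nat.mul_div_mul_right _ _ (by omega)]
    rw [h4]
    exact Nat.div_mul_le_self _ _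
  calc #K ≤ (98 * (J + 2) * #P / (J + 2) ^ 2 + 1) * (35 * s * (J + 2)) := h2
    _ = 35 * s * (98 * (J + 2) * #P / (J + 2) ^ 2 * (J + 2) + (J + 2)) := by ring
    _ ≤ 35 * s * (98 * #P + (J + 2)) := Nat.mul_le_mul_left _ (by omega)

open scoped Classical in
/-- the pairs of a window with few lines between their crossing and the curve -/
theorem win_disc {n : ℕ} {P : Fin n → ℝ × ℝ} (hP : Pool.Agent.H189R2.Iid.GP P) {g : ℝ → ℝ}
    (hg : ∀ i, CrossesOnce g (P i)) {W : Finset ℕ} {J w : ℕ} (hw : #W ≤ w) (hw1 : 1 ≤ w) :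
    ∃ s : ℕ, s ^ 3 ≤ 80 * w ^ 2 * (J + 2) ∧
    ((Pool.Agent.H189R2.Iid.T P).filter (fun q => lev P q ∈ W ∧
      #(univ.filter (fun l => P l ∈ bet g (P q.1) (P q.2))) ≤ J)).card ≤
      35 * s * (98 * n + (J + 2)) := by
  have hinj : Function.Injective P := fun i j h => hP.1 i j (by rw [h])
  set V : Finset (ℝ × ℝ) := univ.image P with hV
  have hVc : #V = n := by
    rw [hV, card_image_of_injective _ hinj, card_univ, Fintype.card_fin]
  have hG : SGP V := sgp_image hP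
  set g' : ℝ → ℝ := fun σ => g (-σ) with hg'
  have hR : ∀ p ∈ V, Ri g' p ∨ Fa g' p := by
    intro p hp
    rw [hV, mem_image] at hp
    obtain ⟨i, -, rfl⟩ := hp
    exact once_ri (hg i)
  set Q := (Pool.Agent.H189R2.Iid.T P).filter (fun q => lev P q ∈ W ∧
      #(univ.filter (fun l => P l ∈ bet g (P q.1) (P q.2))) ≤ J) with hQ
  set K : Finset Seg := Q.image (fun q => ((P q.2, P q.1) : Seg)) with hK
  have hKc : #K = #Q := by
    rw [hK, card_image_of_injective]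
    intro q q' h
    rw [Prod.mk.injEq] at h
    exact Prod.ext (hinj h.2) (hinj h.1)
  have hQm : ∀ q ∈ Q, (P q.2).1 < (P q.1).1 ∧ lev P q ∈ W ∧
      #(univ.filter (fun l => P l ∈ bet g (P q.1) (P q.2))) ≤ J := by
    intro q hq
    rw [hQ, mem_filter, mem_T] at hq
    exact hq
  have hsub : K ⊆ wed V W := by
    intro e he
    rw [hK, mem_image] at he
    obtain ⟨q, hq, rfl⟩ := he
    obtain ⟨h1, h2, h3⟩ := hQm q hq
    rw [mem_wed]
    refine ⟨⟨mem_image_of_mem _ (mem_univ _), mem_image_of_mem _ (mem_univ _)⟩, h1, ?_⟩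
    have h4 : bel V (ss ((P q.2, P q.1) : Seg)) (P q.2) = lev P q := by
      unfold lev bel
      symm
      apply card_bij (fun l _ => P l)
      · intro l hl
        rw [mem_filter] at hl ⊢
        refine ⟨mem_image_of_mem _ (mem_univ _), ?_⟩
        have h5 : (P l).1 * X2 (P q.1) (P q.2) + (P l).2 < Y2 (P q.1) (P q.2) := hl.2
        have h6 := Y2_eq (P q.2, P q.1) h1
        have h7 : hh (ss ((P q.2, P q.1) : Seg)) (P l) =
            (P l).1 * X2 (P q.1) (P q.2) + (P l).2 := hh_X2 _ _ _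
        rw [h7]
        simp only at h6
        rw [← h6]
        exact h5
      · intro l _ l' _ h
        exact hinj h
      · intro p hp
        rw [mem_filter, hV, mem_image] at hp
        obtain ⟨⟨l, -, rfl⟩, hp⟩ := hp
        refine ⟨l, ?_, rfl⟩
        rw [mem_filter]
        refine ⟨mem_univ _, ?_⟩
        show (P l).1 * X2 (P q.1) (P q.2) + (P l).2 < Y2 (P q.1) (P q.2)
        have h6 := Y2_eq (P q.2, P q.1) h1
        have h7 : hh (ss ((P q.2, P q.1) : Seg)) (P l) =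
            (P l).1 * X2 (P q.1) (P q.2) + (P l).2 := hh_X2 _ _ _
        simp only at h6
        rw [h6, ← h7]
        exact hp
    show bel V (ss ((P q.2, P q.1) : Seg)) (P q.2) ∈ W
    rw [h4]
    exact h2
  have hNN : ∀ e ∈ K, NN g' V (ss e) e.1 ≤ J := by
    intro e he
    rw [hK, mem_image] at he
    obtain ⟨q, hq, rfl⟩ := he
    obtain ⟨h1, h2, h3⟩ := hQm q hq
    refine le_trans ?_ h3
    unfold NN
    have hss : ss ((P q.2, P q.1) : Seg) = sl (P q.2) (P q.1) := rfl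
    have hsub2 : V.filter (Bt g' (ss ((P q.2, P q.1) : Seg)) (P q.2)) ⊆
        (univ.filter (fun l => P l ∈ bet g (P q.1) (P q.2))).image P := by
      intro p hp
      rw [mem_filter, hV, mem_image] at hp
      obtain ⟨⟨l, -, rfl⟩, hb⟩ := hp
      rw [mem_image]
      refine ⟨l, ?_, rfl⟩
      rw [mem_filter]
      refine ⟨mem_univ _, ?_⟩
      unfold Bt at hb
      rw [hss] at hb
      have e1 : hh (sl (P q.2) (P q.1)) (P q.2) = Y2 (P q.1) (P q.2) := by
        rw [← hh_sl h1.ne, hh_X2]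
        rfl
      have e2 : g' (sl (P q.2) (P q.1)) = g (X2 (P q.1) (P q.2)) := by
        rw [hg']
        show g (-sl (P q.2) (P q.1)) = _
        rw [sl_X2, neg_neg]
      have e3 : hh (sl (P q.2) (P q.1)) (P l) =
          (P l).1 * X2 (P q.1) (P q.2) + (P l).2 := hh_X2 _ _ _
      rw [e1, e2, e3] at hb
      exact hb.symm
    exact (card_le_card hsub2).trans card_image_le
  obtain ⟨s, hs1, hs2⟩ := win_nat hG hR hw hw1 hsub hNN
  refine ⟨s, hs1, ?_⟩
  rw [hKc, hVc] at hs2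
  exact hs2

end Pool.Agent.U272.IC
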